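import Pool.Agent.Helper21.MT7.Defs

/-!
# Polarised motives, weight-monodromy and Jordan blocks at several primes
-/

set_option autoImplicit false

open NumberField MU

namespace MT

variable {F : Type} [Field F] [NumberField F] {S : Finset ℕ} {n w : ℕ} {h : Fin n → ℕ}

/-- The monodromy of the `l`-adic realisation at the prime `𝔓` over `p ≠ l` has Jordan blocks of
the sizes `i ∈ μ`: an inertia element `τ` acts by a unipotent matrix with these blocks, and
Frobenius elements `g` conjugate it to a power. Moreover the sizes are pairwise distinct, or the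
monodromy filtration is pure: the inverse of `g` is annihilated by an integral polynomial with
roots of absolute value `p ^ (k (w + i - 1) / 2)` on the space of Jordan blocks of size `i`,
that is, on `ker N ^ i / (ker N ^ (i - 1) + N ker N ^ (i + 1))` with `N = τ - 1`. -/
def PMot.JTyp8 (M : PMot F S n w h) (l : ℕ) [Fact l.Prime] (p : ℕ)
    (𝔓 : Ideal (integralClosure ℤ (AlgebraicClosure F))) (μ : Multiset ℕ) : Prop :=
  ∃ τ : Gal F, CongPow 𝔓 1 τ ∧
    (∀ k : ℕ, ((mat (M.ρ l) τ - 1) ^ k).rank = (μ.map fun i => i - k).sum) ∧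
    (∀ (k : ℕ) (g : Gal F), 1 ≤ k → CongPow 𝔓 (p ^ k) g →
      M.ρ l (g * τ * g⁻¹) = (M.ρ l τ) ^ (p ^ k)) ∧
    (μ.Nodup ∨ ∀ (k : ℕ) (g : Gal F), 1 ≤ k → CongPow 𝔓 (p ^ k) g → ∀ i : ℕ, 1 ≤ i →
      ∃ P : Polynomial ℤ, P.Monic ∧
        (∀ z : ℂ, (P.map (Int.castRingHom ℂ)).IsRoot z →
          ‖z‖ ^ 2 = (p : ℝ) ^ (k * (w + i - 1))) ∧
        ∀ v : Fin n → ℚ_[l], ((mat (M.ρ l) τ - 1) ^ i).mulVec v = 0 → ∃ a b : Fin n → ℚ_[l],
          ((mat (M.ρ l) τ - 1) ^ (i - 1)).mulVec a = 0 ∧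
          ((mat (M.ρ l) τ - 1) ^ (i + 1)).mulVec b = 0 ∧
          (Polynomial.aeval (mat (M.ρ l) g⁻¹) P).mulVec v = a + (mat (M.ρ l) τ - 1).mulVec b)

/-- This holds at every place over `p` (for instance, at the places of good reduction). -/
def PMot.Dis8 (M : PMot F S n w h) (l : ℕ) [Fact l.Prime] (p : ℕ) : Prop :=
  ∀ 𝔓 : Ideal (integralClosure ℤ (AlgebraicClosure F)), Over p 𝔓 → ∃ μ, M.JTyp8 l p 𝔓 μ

/-- The number `m` is not the dimension of a subspace stable under an open subgroup: either it is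
not a sum of sizes of Jordan blocks at some place `𝔓` over a prime `p` as above, or (if the Jordan
blocks at some such place have pairwise distinct sizes) there are no `m` of the Hodge types with
average `w / 2`. -/
def PMot.Excl8 (M : PMot F S n w h) (l : ℕ) [Fact l.Prime] (m : ℕ) : Prop :=
  ∃ (p : ℕ) (𝔓 : Ideal (integralClosure ℤ (AlgebraicClosure F))) (μ : Multiset ℕ),
    p.Prime ∧ p ≠ l ∧ M.Dis8 l p ∧ Over p 𝔓 ∧ M.JTyp8 l p 𝔓 μ ∧
      ((∀ T ≤ μ, T.sum ≠ m) ∨
        (μ.Nodup ∧ ∀ J : Finset (Fin n), J.card = m → 2 * ∑ j ∈ J, h j ≠ m * w))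

/-- The motives of the theorem: the monodromy at some place is of infinite order, and every
`0 < m < n` is excluded. -/
def PMot.Amp8 (M : PMot F S n w h) (l : ℕ) [Fact l.Prime] : Prop :=
  (∃ (p : ℕ) (𝔓 : Ideal (integralClosure ℤ (AlgebraicClosure F))) (μ : Multiset ℕ),
    p.Prime ∧ p ≠ l ∧ Over p 𝔓 ∧ M.JTyp8 l p 𝔓 μ ∧ ∃ i ∈ μ, 2 ≤ i) ∧
  ∀ m : ℕ, 0 < m → m < n → M.Excl8 l m

end MT
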