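import Pool.Agent.Helper21.MT8.Defs
import Pool.Agent.Helper21.MT7.Stmts

/-!
# Weight-monodromy and Jordan blocks at several primes: exact statements of the modules (T8)
Proofs: /team-store/mt8_helper21.md
-/

set_option autoImplicit false

open NumberField MU

namespace MT

/-- PRO8: products of constant coefficients of factors of integral polynomials. -/
def ST_PRO8 : Prop :=
  ∀ (K : Type) [Field K] [CharZero K] (ι : Type) [Fintype ι] (m : ι → ℕ) (R : ι → ℝ)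
    (P : ι → Polynomial ℤ) (Q : ι → Polynomial K) (N₁ N₂ : ℕ), (∀ i, (P i).Monic) →
    (∀ i (z : ℂ), ((P i).map (Int.castRingHom ℂ)).IsRoot z → ‖z‖ ^ 2 = R i) →
    (∀ i, (Q i).Monic ∧ (Q i).natDegree = m i ∧ Q i ∣ (P i).map (Int.castRingHom K)) →
    (N₁ : K) * ∏ i, ((-1) ^ (m i) * (Q i).coeff 0) = N₂ →
    (N₁ : ℝ) ^ 2 * ∏ i, R i ^ (m i) = (N₂ : ℝ) ^ 2

/-- LIN8: the stable subspaces of a unipotent matrix `t` with Jordan blocks of sizes `i ∈ μ`,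
normalised by `X`, and the polynomials `P i` annihilating the inverse of `X` on the space of Jordan
blocks of size `i`. -/
def ST_LIN8 : Prop :=
  ∀ (K : Type) [Field K] [CharZero K] (n m Q : ℕ), 2 ≤ Q → ∀ (μ : Multiset ℕ)
    (t X : Matrix (Fin n) (Fin n) K) (P : ℕ → Polynomial ℤ) (B : Matrix (Fin n) (Fin m) K)
    (C : Matrix (Fin m) (Fin n) K) (s a : Matrix (Fin m) (Fin m) K),
    X.det ≠ 0 → X * t = t ^ Q * X →
    (∀ k : ℕ, ((t - 1) ^ k).rank = (μ.map fun i => i - k).sum) →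
    (∀ i : ℕ, 1 ≤ i → (P i).Monic ∧ ∀ v : Fin n → K, ((t - 1) ^ i).mulVec v = 0 →
      ∃ x y : Fin n → K, ((t - 1) ^ (i - 1)).mulVec x = 0 ∧ ((t - 1) ^ (i + 1)).mulVec y = 0 ∧
        (Polynomial.aeval X⁻¹ (P i)).mulVec v = x + (t - 1).mulVec y) →
    C * B = 1 → t * B = B * s → X * B = B * a →
    ∃ (u : ℕ → ℕ → ℕ) (R : ℕ → ℕ → Polynomial K),
      (∀ i j : ℕ, 1 ≤ j → j + 1 ≤ i → u (j + 1) i ≤ u j i) ∧ (∀ i : ℕ, 1 ≤ i → u 1 i ≤ μ.count i) ∧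
      ∑ i ∈ μ.toFinset, ∑ j ∈ Finset.Icc 1 i, u j i = m ∧
      (∀ i j : ℕ, 1 ≤ i → (R j i).Monic ∧ (R j i).natDegree = u j i ∧
        R j i ∣ ((P i) ^ n).map (Int.castRingHom K)) ∧
      (∏ i ∈ μ.toFinset, ∏ j ∈ Finset.Icc 1 i, ((-1) ^ (u j i) * (R j i).coeff 0)) * a.det =
        (Q : K) ^ (∑ i ∈ μ.toFinset, ∑ j ∈ Finset.Icc 1 i, (i - j) * u j i)

/-- IRR8: strong irreducibility (from BAL7, CYI, LIN2, LIN8, PRO8). -/
def ST_IRR8 : Prop :=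
  ∀ (F : Type) [Field F] [NumberField F] (S : Finset ℕ), (∀ p ∈ S, p.Prime) →
    ∀ (n w : ℕ) (h : Fin n → ℕ) (M : QMot F S n w h) (l : ℕ) [Fact l.Prime],
      (∀ m : ℕ, 0 < m → m < n → M.Excl8 l m) →
      ∀ H : Subgroup (Gal F), IsOpen (H : Set (Gal F)) → IsIrr ((mat (M.ρ l)).comp H.subtype)

/-- CLIF8: Lie algebras normalised by a strongly irreducible group with a pseudo-reflection. -/
def ST_CLIF8 : Prop :=
  ∀ (K : Type) [Field K] [CharZero K] (n : ℕ) (G : Subgroup (Matrix.GeneralLinearGroup (Fin n) K))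
    (a : Submodule K (Matrix (Fin n) (Fin n) K)) (N : Matrix (Fin n) (Fin n) K),
    SIrr G → (∀ g ∈ G, ∀ A ∈ a, (g : Matrix (Fin n) (Fin n) K) * A *
      ((g⁻¹ : Matrix.GeneralLinearGroup (Fin n) K) : Matrix (Fin n) (Fin n) K) ∈ a) →
    (∃ g ∈ G, ((g : Matrix (Fin n) (Fin n) K) - 1).rank = 1) →
    N ∈ a → N ≠ 0 → IsNilpotent N →
    ∀ U : Submodule K (Fin n → K), (∀ A ∈ a, ∀ v ∈ U, A.mulVec v ∈ U) → U = ⊥ ∨ U = ⊤

/-- FUL8: the Lie algebra is large (from IRR8, SI8, CLIF8, LOG7, ZAR, PS1, PS2). -/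
def ST_FUL8 : Prop :=
  ∀ (F : Type) [Field F] [NumberField F] (S : Finset ℕ), (∀ p ∈ S, p.Prime) →
    ∀ (n w : ℕ) (h : Fin n → ℕ) (M : QMot F S n w h) (l : ℕ) [Fact l.Prime], 3 ≤ n → M.Amp8 l →
      (∃ g : Gal F, (mat (M.ρ l) g - 1).rank = 1) →
      ∀ H : Subgroup (Gal F), IsOpen (H : Set (Gal F)) → ∀ A : Matrix (Fin n) (Fin n) ℚ_[l],
        A.transpose * bas ℚ_[l] M.ψ + bas ℚ_[l] M.ψ * A = 0 → A ∈ LieZ (H.map (M.ρ l))

/-- MAIN8: the theorem. -/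
def ST_MAIN8 : Prop :=
  ∀ (F : Type) [Field F] [NumberField F] (S : Finset ℕ), (∀ p ∈ S, p.Prime) →
    ∀ (n w : ℕ) (h : Fin n → ℕ) (M : QMot F S n w h) (l : ℕ) [Fact l.Prime],
      ((∀ m : ℕ, 0 < m → m < n → M.Excl8 l m) →
        ∀ H : Subgroup (Gal F), IsOpen (H : Set (Gal F)) →
          IsIrr ((mat (M.ρ l)).comp H.subtype)) ∧
      (M.Amp8 l → 0 < w → 3 ≤ n → (∃ g : Gal F, (mat (M.ρ l) g - 1).rank = 1) →
        ∀ (K : Type) [Field K] [Algebra ℚ_[l] K],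
          (∀ H : Subgroup (Gal F), IsOpen (H : Set (Gal F)) →
            SimC w M.ψ K ⊆ ZC (M.ρ l '' H) K ∧ ZC (M.ρ l '' H) K ⊆ Sim M.ψ K) ∧
          M.Gl l K = M.Gmot K ∧ M.Gmot K = Sim M.ψ K ∧ M.Gl0 l K = SimC w M.ψ K ∧
          M.Gsigma K ⊆ M.Gl0 l K ∧
          ((∀ (a b : ℕ) (t : Tensor n a b ℚ), M.IsHodge t → ∃ H : Subgroup (Gal F),
            IsOpen (H : Set (Gal F)) ∧ ∀ g ∈ H, act (M.ρ l g) (t.base ℚ_[l]) = t.base ℚ_[l]) →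
              M.Gl0 l K = M.Gsigma K))

end MT
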