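import Pool.Agent.Helper21.MT8.LinG
import Pool.Agent.Helper21.MT8.Stmts

/-!
# LIN8: stable subspaces of a unipotent matrix with arbitrary Jordan blocks
-/

set_option autoImplicit false

open NumberField MU

namespace MT

open Module

theorem lin8_core {K V : Type*} [Field K] [AddCommGroup V] [Module K V] [FiniteDimensional K V]
    (t X Y : Module.End K V) (hYX : Y * X = 1) (hXY : X * Y = 1) (μ : Multiset ℕ)
    (hr : ∀ k : ℕ, finrank K (LinearMap.range ((t - 1) ^ k)) = (μ.map fun i => i - k).sum)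
    (q : ℕ) (hq : (q : K) ≠ 0) (hXt : X * t = t ^ q * X) (P : ℕ → Polynomial K)
    (hP : ∀ i : ℕ, 1 ≤ i → ∀ v ∈ kr (t - 1) i, Polynomial.aeval Y (P i) v ∈ rr (t - 1) i) (N : ℕ)
    (hN : finrank K V ≤ N) (U : Submodule K V) (hUt : ∀ u ∈ U, t u ∈ U) (hUX : U ≤ U.comap X) :
    ∃ (u : ℕ → ℕ → ℕ) (R : ℕ → ℕ → Polynomial K),
      (∀ i j : ℕ, 1 ≤ j → j + 1 ≤ i → u (j + 1) i ≤ u j i) ∧ (∀ i : ℕ, 1 ≤ i → u 1 i ≤ μ.count i) ∧
      ∑ i ∈ μ.toFinset, ∑ j ∈ Finset.Icc 1 i, u j i = finrank K U ∧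
      (∀ i j : ℕ, 1 ≤ i → (R j i).Monic ∧ (R j i).natDegree = u j i ∧ R j i ∣ (P i) ^ N) ∧
      (∏ i ∈ μ.toFinset, ∏ j ∈ Finset.Icc 1 i, ((-1) ^ (u j i) * (R j i).coeff 0)) * dR X U =
        (q : K) ^ (∑ i ∈ μ.toFinset, ∑ j ∈ Finset.Icc 1 i, (i - j) * u j i) := by
  classical
  set M : Module.End K V := t - 1 with hM
  have hinj : Function.Injective X := by
    intro u v huv
    have := congrArg (fun z => Y z) huv
    rw [← Module.End.mul_apply, ← Module.End.mul_apply, hYX] at this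
    exact this
  set L : ℕ := μ.sum with hL
  have hLi : ∀ i ∈ μ, i ≤ L := fun i hi => Multiset.single_le_sum (fun _ _ => Nat.zero_le _) i hi
  have hML : M ^ L = 0 := by
    have h1 : (μ.map fun i => i - L).sum = 0 := by
      apply Multiset.sum_eq_zero
      intro x hx
      rw [Multiset.mem_map] at hx
      obtain ⟨i, hi, rfl⟩ := hx
      have := hLi i hi
      omega
    have h2 := hr L
    rw [h1, Submodule.finrank_eq_zero, LinearMap.range_eq_bot] at h2
    exact h2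
  obtain ⟨G, G', hF⟩ := geo t X q hXt hq hinj ⟨L, hML⟩
  rw [← hM] at hF
  have hUM : ∀ u ∈ U, M u ∈ U := by
    intro u hu
    rw [hM, LinearMap.sub_apply, Module.End.one_apply]
    exact U.sub_mem (hUt u hu) hu
  have hUY : U ≤ U.comap Y := inv_stable X Y hYX U hUX
  have hstX : ∀ j i, U ⊓ ww M j i ≤ (U ⊓ ww M j i).comap X := fun j i v hv =>
    ⟨hUX hv.1, hF.ww j i v hv.2⟩
  have hstY : ∀ j i, U ⊓ ww M j i ≤ (U ⊓ ww M j i).comap Y := fun j i =>
    inv_stable X Y hYX _ (hstX j i)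
  have hstY2 : ∀ (j i : ℕ) (c : K), U ⊓ ww M j i ≤ (U ⊓ ww M j i).comap (c • Y) := by
    intro j i c v hv
    have h0 : Y v ∈ U ⊓ ww M j i := hstY j i hv
    exact Submodule.smul_mem _ _ h0
  -- the polynomials
  have hR : ∀ j i : ℕ, 1 ≤ j → j ≤ i → ∃ R : Polynomial K, R.Monic ∧
      R.natDegree = finrank K ↥(U ⊓ ww M j i) - finrank K ↥(U ⊓ ww M j (i + 1)) ∧
      R ∣ (P i) ^ N ∧
      dR X (U ⊓ ww M j i) * ((-1) ^ (finrank K ↥(U ⊓ ww M j i) -
        finrank K ↥(U ⊓ ww M j (i + 1))) * R.coeff 0) =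
        dR X (U ⊓ ww M j (i + 1)) * ((q : K) ^ (i - j)) ^ (finrank K ↥(U ⊓ ww M j i) -
        finrank K ↥(U ⊓ ww M j (i + 1))) := by
    intro j i hj hi
    apply dR_gr X ((q : K) ^ (i - j) • Y) (U ⊓ ww M j (i + 1)) (U ⊓ ww M j i)
      (inf_le_inf_left U (ww_succ_le M j i hi)) (hstX j (i + 1)) (hstX j i)
      (hstY2 j (i + 1) ((q : K) ^ (i - j))) (hstY2 j i ((q : K) ^ (i - j)))
      ((q : K) ^ (i - j)) ?_ (P i) N hN ?_
    · intro v
      rw [LinearMap.smul_apply, ← Module.End.mul_apply, hYX]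
      rfl
    · intro v hv
      refine ⟨?_, hF.inv_poly Y hYX hXY j i hj hi (P i) (hP i (le_trans hj hi)) v hv.2⟩
      have h0 : U ≤ U.comap ((q : K) ^ (i - j) • Y) := by
        intro v hv
        have h1 : Y v ∈ U := hUY hv
        exact U.smul_mem _ h1
      exact aeval_stable _ U h0 (P i) v hv.1
  choose! R₀ hR1 hR2 hR3 hR4 using hR
  set u : ℕ → ℕ → ℕ := fun j i => if 1 ≤ j ∧ j ≤ i then
    finrank K ↥(U ⊓ ww M j i) - finrank K ↥(U ⊓ ww M j (i + 1)) else 0 with hu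
  set R : ℕ → ℕ → Polynomial K := fun j i => if 1 ≤ j ∧ j ≤ i then R₀ j i else 1 with hRdef
  have huv : ∀ j i, 1 ≤ j → j ≤ i →
      u j i = finrank K ↥(U ⊓ ww M j i) - finrank K ↥(U ⊓ ww M j (i + 1)) := by
    intro j i hj hi
    simp only [hu]
    rw [if_pos ⟨hj, hi⟩]
  have hRv : ∀ j i, 1 ≤ j → j ≤ i → R j i = R₀ j i := by
    intro j i hj hi
    simp only [hRdef]
    rw [if_pos ⟨hj, hi⟩]
  have hprop : ∀ i j : ℕ, (R j i).Monic ∧ (R j i).natDegree = u j i ∧ R j i ∣ (P i) ^ N := by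
    intro i j
    by_cases h1 : 1 ≤ j ∧ j ≤ i
    · rw [hRv j i h1.1 h1.2, huv j i h1.1 h1.2]
      exact ⟨hR1 j i h1.1 h1.2, hR2 j i h1.1 h1.2, hR3 j i h1.1 h1.2⟩
    · simp only [hRdef, hu]
      rw [if_neg h1, if_neg h1]
      exact ⟨Polynomial.monic_one, Polynomial.natDegree_one, one_dvd _⟩
  have hcount : ∀ j i, 1 ≤ j → j ≤ i → u j i ≤ μ.count i := by
    intro j i hj hi
    rw [huv j i hj hi]
    exact le_trans (inf_gr_le U _ _ (ww_succ_le M j i hi)) (ww_gr_le M μ hr j i hj hi)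
  -- the weights
  set ct : ℕ → ℕ → K := fun j i => (-1) ^ (u j i) * (R j i).coeff 0 with hct
  set wt : ℕ → ℕ → K := fun j i => (q : K) ^ ((i - j) * u j i) with hwt
  have hstep : ∀ j i : ℕ, 1 ≤ j → j ≤ i →
      dR X (U ⊓ ww M j i) * ct j i = dR X (U ⊓ ww M j (i + 1)) * wt j i ∧
      finrank K ↥(U ⊓ ww M j i) = finrank K ↥(U ⊓ ww M j (i + 1)) + u j i := by
    intro j i hj hi
    constructor
    · simp only [hct, hwt]
      rw [huv j i hj hi, hRv j i hj hi, pow_mul]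
      exact hR4 j i hj hi
    · rw [huv j i hj hi]
      have := Submodule.finrank_mono (inf_le_inf_left U (ww_succ_le M j i hi))
      omega
  have hrow : ∀ j : ℕ, 1 ≤ j → j ≤ L → ∀ d : ℕ, d ≤ 2 * L - j →
      dR X (U ⊓ ww M j (2 * L - d)) * ∏ i ∈ Finset.Ico (2 * L - d) (2 * L), ct j i =
        dR X (U ⊓ kr M (j - 1)) * ∏ i ∈ Finset.Ico (2 * L - d) (2 * L), wt j i ∧
      finrank K ↥(U ⊓ ww M j (2 * L - d)) =
        finrank K ↥(U ⊓ kr M (j - 1)) + ∑ i ∈ Finset.Ico (2 * L - d) (2 * L), u j i := by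
    intro j hj hjL d
    induction d with
    | zero =>
      intro _
      rw [Nat.sub_zero, ww_top M j (2 * L) L hML (by omega), Finset.Ico_self, Finset.prod_empty,
        Finset.prod_empty, Finset.sum_empty]
      exact ⟨rfl, rfl⟩
    | succ d ih =>
      intro hd
      have h1 := ih (by omega)
      have h2 := hstep j (2 * L - (d + 1)) hj (by omega)
      have h3 : 2 * L - (d + 1) + 1 = 2 * L - d := by omega
      rw [h3] at h2
      have h4 : Finset.Ico (2 * L - (d + 1)) (2 * L) =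
          insert (2 * L - (d + 1)) (Finset.Ico (2 * L - d) (2 * L)) := by
        rw [← h3]
        exact (Finset.insert_Ico_add_one_left_eq_Ico (by omega)).symm
      have h5 : 2 * L - (d + 1) ∉ Finset.Ico (2 * L - d) (2 * L) := by
        rw [Finset.mem_Ico]
        omega
      rw [h4, Finset.prod_insert h5, Finset.prod_insert h5, Finset.sum_insert h5]
      constructor
      · calc dR X (U ⊓ ww M j (2 * L - (d + 1))) * (ct j (2 * L - (d + 1)) *
              ∏ i ∈ Finset.Ico (2 * L - d) (2 * L), ct j i) =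
            (dR X (U ⊓ ww M j (2 * L - (d + 1))) * ct j (2 * L - (d + 1))) *
              ∏ i ∈ Finset.Ico (2 * L - d) (2 * L), ct j i := by ring
          _ = (dR X (U ⊓ ww M j (2 * L - d)) *
              ∏ i ∈ Finset.Ico (2 * L - d) (2 * L), ct j i) * wt j (2 * L - (d + 1)) := by
                rw [h2.1]; ring
          _ = _ := by rw [h1.1]; ring
      · rw [h2.2, h1.2]
        ring
  have hkr : ∀ j : ℕ, j ≤ L →
      dR X (U ⊓ kr M j) * ∏ j' ∈ Finset.Icc 1 j, ∏ i ∈ Finset.Ico j' (2 * L), ct j' i =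
        ∏ j' ∈ Finset.Icc 1 j, ∏ i ∈ Finset.Ico j' (2 * L), wt j' i ∧
      finrank K ↥(U ⊓ kr M j) = ∑ j' ∈ Finset.Icc 1 j, ∑ i ∈ Finset.Ico j' (2 * L), u j' i := by
    intro j
    induction j with
    | zero =>
      intro _
      have h1 : kr M 0 = ⊥ := by
        unfold kr
        rw [pow_zero]
        exact LinearMap.ker_id
      rw [h1, inf_bot_eq, dR_bot, finrank_bot]
      simp
    | succ j ih =>
      intro hj
      have h1 := ih (by omega)
      have h2 := hrow (j + 1) (by omega) hj (2 * L - (j + 1)) le_rfl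
      have h3 : 2 * L - (2 * L - (j + 1)) = j + 1 := by omega
      rw [h3, ww_self, Nat.add_sub_cancel] at h2
      rw [Finset.prod_Icc_succ_top (by omega), Finset.prod_Icc_succ_top (by omega),
        Finset.sum_Icc_succ_top (by omega)]
      constructor
      · rw [← h1.1]
        calc dR X (U ⊓ kr M (j + 1)) * ((∏ j' ∈ Finset.Icc 1 j, ∏ i ∈ Finset.Ico j' (2 * L),
              ct j' i) * ∏ i ∈ Finset.Ico (j + 1) (2 * L), ct (j + 1) i) =
              (dR X (U ⊓ kr M (j + 1)) * ∏ i ∈ Finset.Ico (j + 1) (2 * L), ct (j + 1) i) *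
              ∏ j' ∈ Finset.Icc 1 j, ∏ i ∈ Finset.Ico j' (2 * L), ct j' i := by ring
          _ = _ := by rw [h2.1]; ring
      · rw [h2.2, h1.2]
  have hall := hkr L le_rfl
  have htop : kr M L = ⊤ := by
    unfold kr
    rw [hML]
    exact LinearMap.ker_zero
  rw [htop, inf_top_eq] at hall
  -- reindex
  have hre : ∀ j ∈ Finset.Icc 1 L,
      (∏ i ∈ Finset.Ico j (2 * L), ct j i = ∏ i ∈ μ.toFinset.filter (fun i => j ≤ i), ct j i) ∧
      (∏ i ∈ Finset.Ico j (2 * L), wt j i = ∏ i ∈ μ.toFinset.filter (fun i => j ≤ i), wt j i) ∧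
      (∑ i ∈ Finset.Ico j (2 * L), u j i = ∑ i ∈ μ.toFinset.filter (fun i => j ≤ i), u j i) := by
    intro j hj
    rw [Finset.mem_Icc] at hj
    have hsub : μ.toFinset.filter (fun i => j ≤ i) ⊆ Finset.Ico j (2 * L) := by
      intro i hi
      rw [Finset.mem_filter, Multiset.mem_toFinset] at hi
      rw [Finset.mem_Ico]
      have := hLi i hi.1
      omega
    have hno : ∀ i ∈ Finset.Ico j (2 * L), i ∉ μ.toFinset.filter (fun i => j ≤ i) → u j i = 0 := by
      intro i hi hi2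
      rw [Finset.mem_Ico] at hi
      have h1 := hcount j i hj.1 hi.1
      have h2 : μ.count i = 0 := by
        rw [Multiset.count_eq_zero]
        intro h3
        apply hi2
        rw [Finset.mem_filter, Multiset.mem_toFinset]
        exact ⟨h3, hi.1⟩
      omega
    have hno2 : ∀ i ∈ Finset.Ico j (2 * L), i ∉ μ.toFinset.filter (fun i => j ≤ i) →
        R j i = 1 := by
      intro i hi hi2
      have h1 := hprop i j
      rw [hno i hi hi2] at h1
      exact Polynomial.eq_one_of_monic_natDegree_zero h1.1 h1.2.1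
    refine ⟨?_, ?_, ?_⟩
    · symm
      apply Finset.prod_subset hsub
      intro i hi hi2
      simp only [hct]
      rw [hno i hi hi2, hno2 i hi hi2]
      simp
    · symm
      apply Finset.prod_subset hsub
      intro i hi hi2
      simp only [hwt]
      rw [hno i hi hi2]
      simp
    · symm
      apply Finset.sum_subset hsub
      intro i hi hi2
      exact hno i hi hi2
  have hcomm : ∀ x y : ℕ, x ∈ Finset.Icc 1 L ∧ y ∈ μ.toFinset.filter (fun i => x ≤ i) ↔
      x ∈ Finset.Icc 1 y ∧ y ∈ μ.toFinset := by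
    intro x y
    rw [Finset.mem_Icc, Finset.mem_filter, Finset.mem_Icc, Multiset.mem_toFinset]
    constructor
    · rintro ⟨⟨h1, h2⟩, h3, h4⟩
      exact ⟨⟨h1, h4⟩, h3⟩
    · rintro ⟨⟨h1, h2⟩, h3⟩
      exact ⟨⟨h1, le_trans h2 (hLi y h3)⟩, h3, h2⟩
  have hP1 : ∏ j' ∈ Finset.Icc 1 L, ∏ i ∈ Finset.Ico j' (2 * L), ct j' i =
      ∏ i ∈ μ.toFinset, ∏ j ∈ Finset.Icc 1 i, ct j i := by
    rw [Finset.prod_congr rfl (fun j hj => (hre j hj).1)]
    exact Finset.prod_comm' hcomm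
  have hP2 : ∏ j' ∈ Finset.Icc 1 L, ∏ i ∈ Finset.Ico j' (2 * L), wt j' i =
      ∏ i ∈ μ.toFinset, ∏ j ∈ Finset.Icc 1 i, wt j i := by
    rw [Finset.prod_congr rfl (fun j hj => (hre j hj).2.1)]
    exact Finset.prod_comm' hcomm
  have hS : finrank K U = ∑ i ∈ μ.toFinset, ∑ j ∈ Finset.Icc 1 i, u j i := by
    rw [hall.2, Finset.sum_congr rfl (fun j hj => (hre j hj).2.2)]
    exact Finset.sum_comm' hcomm
  refine ⟨u, R, ?_, ?_, hS.symm, fun i j _ => hprop i j, ?_⟩
  · intro i j hj hi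
    rw [huv (j + 1) i (by omega) hi, huv j i hj (by omega)]
    apply gr_inj M _ _ _ _ (inf_le_inf_left U (ww_succ_le M (j + 1) i hi))
      (inf_le_inf_left U (ww_succ_le M j i (by omega)))
    · intro v hv
      exact ⟨hUM v hv.1, (ww_map M j i hj hi v hv.2).1⟩
    · intro v hv hv2
      exact ⟨hv.1, (ww_map M j i hj hi v hv.2).2 hv2.2⟩
  · intro i hi
    exact hcount 1 i le_rfl hi
  · rw [hP1, hP2] at hall
    rw [mul_comm]
    rw [show (∏ i ∈ μ.toFinset, ∏ j ∈ Finset.Icc 1 i, ((-1) ^ (u j i) * (R j i).coeff 0)) =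
      ∏ i ∈ μ.toFinset, ∏ j ∈ Finset.Icc 1 i, ct j i from rfl, hall.1,
      ← Finset.prod_pow_eq_pow_sum]
    apply Finset.prod_congr rfl
    intro i _
    rw [← Finset.prod_pow_eq_pow_sum]

theorem st_LIN8 : ST_LIN8 := by
  intro K _ _ n m Q hQ μ t X P B C s a hX hXt hr hP hCB hs ha
  let tl : Module.End K (Fin n → K) := Matrix.toLinAlgEquiv' t
  let Xl : Module.End K (Fin n → K) := Matrix.toLinAlgEquiv' X
  let Yl : Module.End K (Fin n → K) := Matrix.toLinAlgEquiv' X⁻¹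
  have hu : IsUnit X.det := isUnit_iff_ne_zero.mpr hX
  have hYX : Yl * Xl = 1 := by
    have h1 : Yl * Xl = Matrix.toLinAlgEquiv' (X⁻¹ * X) := (map_mul _ _ _).symm
    rw [h1, Matrix.nonsing_inv_mul _ hu, map_one]
  have hXY : Xl * Yl = 1 := by
    have h1 : Xl * Yl = Matrix.toLinAlgEquiv' (X * X⁻¹) := (map_mul _ _ _).symm
    rw [h1, Matrix.mul_nonsing_inv _ hu, map_one]
  have htl : ∀ v, tl v = t.mulVec v := fun v => rfl
  have hXl : ∀ v, Xl v = X.mulVec v := fun v => rfl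
  have hXt' : Xl * tl = tl ^ Q * Xl := by
    have h1 : Xl * tl = Matrix.toLinAlgEquiv' (X * t) := (map_mul _ _ _).symm
    have h2 : tl ^ Q * Xl = Matrix.toLinAlgEquiv' (t ^ Q * X) := by
      rw [map_mul, map_pow]
    rw [h1, h2, hXt]
  have hpow : ∀ k : ℕ, (tl - 1) ^ k = Matrix.toLinAlgEquiv' ((t - 1) ^ k) := by
    intro k
    rw [map_pow, map_sub, map_one]
  have hr' : ∀ k : ℕ, finrank K (LinearMap.range ((tl - 1) ^ k)) =
      (μ.map fun i => i - k).sum := by
    intro k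
    rw [← hr k, hpow k]
    rfl
  have hkr : ∀ (k : ℕ) (v : Fin n → K), v ∈ kr (tl - 1) k ↔ ((t - 1) ^ k).mulVec v = 0 := by
    intro k v
    rw [mem_kr, hpow k]
    rfl
  let Bl : (Fin m → K) →ₗ[K] (Fin n → K) := B.mulVecLin
  let U : Submodule K (Fin n → K) := LinearMap.range Bl
  have hBl : ∀ v, Bl v = B.mulVec v := fun v => rfl
  have hBinj : Function.Injective Bl := by
    intro u v huv
    have h1 : C.mulVec (B.mulVec u) = C.mulVec (B.mulVec v) := by
      rw [← hBl, ← hBl, huv]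
    rw [Matrix.mulVec_mulVec, Matrix.mulVec_mulVec, hCB, Matrix.one_mulVec, Matrix.one_mulVec] at h1
    exact h1
  have hUt : ∀ u ∈ U, tl u ∈ U := by
    rintro _ ⟨v, rfl⟩
    refine ⟨s.mulVec v, ?_⟩
    rw [hBl, hBl, htl, Matrix.mulVec_mulVec, Matrix.mulVec_mulVec, hs]
  have hUX : U ≤ U.comap Xl := by
    rintro _ ⟨v, rfl⟩
    refine ⟨a.mulVec v, ?_⟩
    rw [hBl, hBl, hXl, Matrix.mulVec_mulVec, Matrix.mulVec_mulVec, ha]
  have hdim : finrank K U = m := by
    have h1 : finrank K U = finrank K (Fin m → K) := LinearMap.finrank_range_of_inj hBinj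
    rw [h1, Module.finrank_fin_fun]
  have hdet : dR Xl U = a.det := by
    rw [dR_eq Xl U hUX]
    let e : (Fin m → K) ≃ₗ[K] U := LinearEquiv.ofInjective Bl hBinj
    have h1 : Xl.restrict hUX = ((e : (Fin m → K) →ₗ[K] U) ∘ₗ (Matrix.toLin' a) ∘ₗ
        (e.symm : U →ₗ[K] (Fin m → K))) := by
      apply LinearMap.ext
      intro u
      obtain ⟨v, rfl⟩ := e.surjective u
      apply Subtype.ext
      simp only [LinearMap.coe_comp, LinearEquiv.coe_coe, Function.comp_apply,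
        LinearEquiv.symm_apply_apply, Matrix.toLin'_apply]
      change X.mulVec (B.mulVec v) = B.mulVec (a.mulVec v)
      rw [Matrix.mulVec_mulVec, Matrix.mulVec_mulVec, ha]
    rw [h1, LinearMap.det_conj, LinearMap.det_toLin']
  have hq : (Q : K) ≠ 0 := by
    have : (Q : K) ≠ ((0 : ℕ) : K) := by
      rw [Ne, Nat.cast_inj]
      omega
    rwa [Nat.cast_zero] at this
  have hP' : ∀ i : ℕ, 1 ≤ i → ∀ v ∈ kr (tl - 1) i,
      Polynomial.aeval Yl ((P i).map (Int.castRingHom K)) v ∈ rr (tl - 1) i := by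
    intro i hi v hv
    rw [hkr] at hv
    obtain ⟨x, y, hx, hy, hxy⟩ := (hP i hi).2 v hv
    have h1 : Polynomial.aeval Yl ((P i).map (Int.castRingHom K)) =
        Matrix.toLinAlgEquiv' (Polynomial.aeval X⁻¹ (P i)) := by
      have h2 : Polynomial.aeval Yl ((P i).map (Int.castRingHom K)) =
          Polynomial.aeval Yl (P i) := by
        exact Polynomial.aeval_map_algebraMap K Yl (P i)
      rw [h2]
      exact Polynomial.aeval_algHom_apply
        ((Matrix.toLinAlgEquiv' (R := K) (n := Fin n)).toAlgHom.restrictScalars ℤ) X⁻¹ (P i)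
    rw [h1]
    change (Polynomial.aeval X⁻¹ (P i)).mulVec v ∈ _
    rw [hxy]
    unfold rr
    apply Submodule.add_mem
    · apply Submodule.mem_sup_left
      rw [hkr]
      exact hx
    · apply Submodule.mem_sup_right
      refine ⟨y, ?_, ?_⟩
      · rw [SetLike.mem_coe, hkr]
        exact hy
      · have h2 := hpow 1
        rw [pow_one, pow_one] at h2
        rw [h2]
        rfl
  obtain ⟨u, R, h1, h2, h3, h4, h5⟩ := lin8_core tl Xl Yl hYX hXY μ hr' Q hq hXt'
    (fun i => (P i).map (Int.castRingHom K)) hP' n (by rw [Module.finrank_fin_fun]) U hUt hUX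
  rw [hdim] at h3
  rw [hdet] at h5
  refine ⟨u, R, h1, h2, h3, ?_, h5⟩
  intro i j hi
  rw [Polynomial.map_pow]
  exact h4 i j hi

end MT
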