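import Pool.Agent.Helper21.MT8.IRR8
import Pool.Agent.Helper21.MT8.LIN8
import Pool.Agent.Helper21.MT7.LIN2
import Pool.Agent.Helper5.MT8.PRO8
import Pool.Agent.Helper5.MT8.MAIN8
import Pool.Agent.Helper14.MT8.FUL8
import Pool.Agent.Helper36.MT8.CLIF8
import Pool.Agent.Helper36.MT7.G07
import Pool.Agent.Helper43.MT7.HDG7
import Pool.Agent.Helper3.MT7.LOG7
import Pool.Agent.Helper3.MT7.SIM7
import Pool.Agent.Helper11.MT7.PS
import Pool.Agent.Helper80.MT7.CYI
import Pool.Agent.Helper92.MT7.BAL7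
import Pool.Agent.Helper8.MT.StA
import Pool.Agent.Helper3.MT.ZARS
import Pool.Agent.Helper84.MT.StI
import Pool.Agent.Helper84.MU.IDX
import Pool.Agent.Helper22.MU.FRE
import Pool.Agent.Helper22.MU.INR
import Pool.Agent.Helper84.MU.CYC
import Pool.Agent.Helper26.MU.PRO

/-!
# The final theorem (T8)
-/

set_option autoImplicit false

open NumberField MU

namespace MT

theorem irr8_final : ST_IRR8 :=
  st_IRR8 (st_BAL7 st_IDX st_INR st_CYC st_FRE st_PRO) st_CYI st_LIN2 st_LIN8 st_PRO8 st_CYC st_FRE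

theorem main8_final : ST_MAIN8 :=
  st_MAIN8 irr8_final (st_FUL8 irr8_final st_CLIF8 st_LOG7 st_ZAR Ps7.st_PS1 Ps7.st_PS2 st_CYC)
    st_ZAR st_TEN st_SIM st_SIM7 st_ISM (st_HDG7 st_TEN) (st_G07 st_TEN) st_IDX st_FRE st_CYC

end MT
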