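import Pool.Agent.Helper21.MT8.IrrB

/-!
# IRR8: strong irreducibility
-/

set_option autoImplicit false
set_option maxHeartbeats 1000000

open NumberField MU

namespace MT

variable {F : Type} [Field F] [NumberField F] {S : Finset ℕ} {n w : ℕ} {h : Fin n → ℕ}

theorem sub_mulA {G K : Type} [Group G] [Field K] {n m : ℕ} (r : G →* Matrix (Fin n) (Fin n) K)
    (B : Matrix (Fin n) (Fin m) K) (A : G → Matrix (Fin m) (Fin m) K) (h : IsSub r B A)
    (g g' : G) : A (g * g') = A g * A g' := by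
  obtain ⟨⟨C, hC⟩, hA⟩ := h
  have h1 : B * A (g * g') = B * (A g * A g') := by
    rw [← hA, map_mul, Matrix.mul_assoc, hA, ← Matrix.mul_assoc, hA, Matrix.mul_assoc]
  calc A (g * g') = C * B * A (g * g') := by rw [hC, Matrix.one_mul]
    _ = C * B * (A g * A g') := by rw [Matrix.mul_assoc, h1, Matrix.mul_assoc]
    _ = A g * A g' := by rw [hC, Matrix.one_mul]

theorem sub_det_conj {G K : Type} [Group G] [Field K] {n m : ℕ}
    (r : G →* Matrix (Fin n) (Fin n) K) (B : Matrix (Fin n) (Fin m) K)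
    (A : G → Matrix (Fin m) (Fin m) K) (h : IsSub r B A) (g x : G) :
    (A (g⁻¹ * x * g)).det = (A x).det := by
  have h1 := sub_hom r B A h g
  have h2 : (A g).det * (A g⁻¹).det = 1 := by
    rw [← Matrix.det_mul, h1, Matrix.det_one]
  rw [sub_mulA r B A h, sub_mulA r B A h, Matrix.det_mul, Matrix.det_mul]
  calc (A g⁻¹).det * (A x).det * (A g).det = ((A g).det * (A g⁻¹).det) * (A x).det := by ring
    _ = (A x).det := by rw [h2, one_mul]

/-- stable subspaces are sums of Jordan blocks -/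
theorem key_all8 (bal : ST_BAL7) (lin2 : ST_LIN2) (lin8 : ST_LIN8) (pro8 : ST_PRO8)
    (hcyc : ST_CYC) (hS : ∀ p ∈ S, p.Prime)
    (M : QMot F S n w h) (l : ℕ) [Fact l.Prime] (H : Subgroup (Gal F))
    (hH : IsOpen (H : Set (Gal F))) (m : ℕ)
    (B : Matrix (Fin n) (Fin m) ℚ_[l]) (A : H → Matrix (Fin m) (Fin m) ℚ_[l])
    (hs : IsSub ((mat (M.ρ l)).comp H.subtype) B A) (p : ℕ) (hp : p.Prime) (hpl : p ≠ l)
    (hD : M.Dis8 l p) (𝔓 : Ideal (Zb F)) (h𝔓 : Over p 𝔓) (μ : Multiset ℕ)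
    (hJ : M.JTyp8 l p 𝔓 μ) :
    (∃ T ≤ μ, T.sum = m) ∧
      (μ.Nodup → 0 < m → B.transpose * bas ℚ_[l] M.ψ * B ≠ 0) := by
  classical
  have hp0 : (p : ℚ_[l]) ≠ 0 := by
    rw [Nat.cast_ne_zero]
    exact hp.ne_zero
  obtain ⟨H₁, hH₁, -, -, e, he, hHe⟩ := exists_core H hH
  have hHe' : ∀ g : Gal F, g ^ e ∈ H := fun g => hH₁ (hHe g)
  obtain ⟨d, r, x, k, 𝔔, hd, hFr, hbal⟩ := bal F S hS H hH
  obtain ⟨e', he', hprod⟩ := hbal n w h M l m B A hs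
  obtain ⟨hsum, hFr1, hFr2⟩ := hFr p hp
  obtain ⟨i₀, g₀, hg₀⟩ := hFr2 𝔓 h𝔓
  have hdat : ∀ i : Fin (r p), ∃ (𝔔' : Ideal (Zb F)) (x' : H) (μ' : Multiset ℕ),
      Over p 𝔔' ∧ CongPow 𝔔' (p ^ k p i) (x' : Gal F) ∧ (A x').det = (A (x p i)).det ∧
      M.JTyp8 l p 𝔔' μ' ∧ (i = i₀ → μ' = μ) := by
    intro i
    by_cases hi : i = i₀
    · subst hi
      refine ⟨𝔓, g₀⁻¹ * x p i * g₀, μ, h𝔓, ?_, ?_, hJ, fun _ => rfl⟩
      · have hP : 𝔓 = tp (g₀ : Gal F) (𝔔 p i) := by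
          ext y
          exact hg₀ y (sm (g₀ : Gal F) y) rfl
        rw [hP]
        exact congPow_conj (𝔔 p i) (p ^ k p i) (x p i : Gal F) (g₀ : Gal F) (hFr1 i).2.2
      · exact sub_det_conj ((mat (M.ρ l)).comp H.subtype) B A hs g₀ (x p i)
    · obtain ⟨μ', hμ'⟩ := hD (𝔔 p i) (hFr1 i).1
      exact ⟨𝔔 p i, x p i, μ', (hFr1 i).1, (hFr1 i).2.2, rfl, hμ', fun h => absurd h hi⟩
  choose 𝔔' x' μ' hq1 hq2 hq3 hq4 hq5 using hdat
  have hkey := fun i => key_place8 lin2 lin8 hcyc M l H e he hHe' m B A hs p hp hpl (𝔔' i) (hq1 i)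
    (k p i) (hFr1 i).2.1 (x' i) (hq2 i) (μ' i) (hq4 i)
  choose ι hι m' R' P' Q' a b c hk1 hk2 hk3 hk4 hk5 hk6 hk7 using hkey
  -- the product formula
  have h1 : ∏ i, ((∏ y, ((-1) ^ (m' i y) * (Q' i y).coeff 0)) ^ 2 * (A (x p i)).det ^ 2 *
      (p : ℚ_[l]) ^ (a i)) = ∏ i, (p : ℚ_[l]) ^ (b i) := by
    apply Finset.prod_congr rfl
    intro i _
    rw [← hq3 i]
    exact hk4 i
  rw [Finset.prod_mul_distrib, Finset.prod_mul_distrib, Finset.prod_pow_eq_pow_sum,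
    Finset.prod_pow_eq_pow_sum, Finset.prod_pow, Finset.prod_pow] at h1
  have h2 := hprod p hp hpl
  have h3 : ((p : ℕ) ^ (e' * ∑ i, a i) : ℚ_[l]) *
      (∏ i, ∏ y, ((-1) ^ (m' i y) * (Q' i y).coeff 0)) ^ (2 * e') =
      (p : ℚ_[l]) ^ (e' * (∑ i, b i + d * (m * w))) := by
    have h4 := congrArg (fun z => z ^ e' * (p : ℚ_[l]) ^ (e' * (d * (m * w)))) h1
    rw [mul_pow, mul_pow, ← pow_mul, ← pow_mul, ← pow_mul] at h4
    calc ((p : ℕ) ^ (e' * ∑ i, a i) : ℚ_[l]) *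
        (∏ i, ∏ y, ((-1) ^ (m' i y) * (Q' i y).coeff 0)) ^ (2 * e') =
        ((p : ℕ) ^ (e' * ∑ i, a i) : ℚ_[l]) *
        (∏ i, ∏ y, ((-1) ^ (m' i y) * (Q' i y).coeff 0)) ^ (2 * e') *
        ((∏ i, (A (x p i)).det) ^ (2 * e') * (p : ℚ_[l]) ^ (e' * (d * (m * w)))) := by
          rw [h2, mul_one]
      _ = (∏ i, ∏ y, ((-1) ^ (m' i y) * (Q' i y).coeff 0)) ^ (2 * e') *
        (∏ i, (A (x p i)).det) ^ (2 * e') * (p : ℚ_[l]) ^ ((∑ i, a i) * e') *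
        (p : ℚ_[l]) ^ (e' * (d * (m * w))) := by ring
      _ = ((p : ℚ_[l]) ^ ∑ i, b i) ^ e' * (p : ℚ_[l]) ^ (e' * (d * (m * w))) := h4
      _ = _ := by ring
  -- absolute values
  have h5 := pro8 ℚ_[l] (Σ i : Fin (r p), Fin (2 * e') × ι i) (fun y => m' y.1 y.2.2)
    (fun y => R' y.1 y.2.2) (fun y => P' y.1 y.2.2) (fun y => Q' y.1 y.2.2)
    (p ^ (e' * ∑ i, a i)) (p ^ (e' * (∑ i, b i + d * (m * w))))
    (fun y => hk1 y.1 y.2.2) (fun y z hz => hk2 y.1 y.2.2 z hz) (fun y => hk3 y.1 y.2.2) (by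
      rw [Fintype.prod_sigma]
      simp only [Fintype.prod_prod_type, Finset.prod_const, Finset.card_univ, Fintype.card_fin]
      rw [Finset.prod_pow]
      push_cast
      exact h3)
  rw [Fintype.prod_sigma] at h5
  simp only [Fintype.prod_prod_type, Finset.prod_const, Finset.card_univ, Fintype.card_fin] at h5
  have h6 : ∏ i, (∏ y, R' i y ^ (m' i y)) ^ (2 * e') = (p : ℝ) ^ (2 * e' * ∑ i, c i) := by
    rw [Finset.prod_pow, Finset.prod_congr rfl (fun i _ => hk5 i), Finset.prod_pow_eq_pow_sum,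
      ← pow_mul]
    congr 1
    ring
  rw [h6] at h5
  have h7 : p ^ (2 * (e' * ∑ i, a i) + 2 * e' * ∑ i, c i) =
      p ^ (2 * (e' * (∑ i, b i + d * (m * w)))) := by
    have h8 : ((p ^ (2 * (e' * ∑ i, a i) + 2 * e' * ∑ i, c i) : ℕ) : ℝ) =
        ((p ^ (2 * (e' * (∑ i, b i + d * (m * w)))) : ℕ) : ℝ) := by
      push_cast
      push_cast at h5
      rw [pow_add, mul_comm 2 (e' * ∑ i, a i), pow_mul, h5]
      ring
    exact_mod_cast h8
  have h8 := Nat.pow_right_injective hp.two_le h7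
  have h9 : ∑ i, (a i + c i) = ∑ i, (b i + k p i * (m * w)) := by
    rw [Finset.sum_add_distrib, Finset.sum_add_distrib, ← Finset.sum_mul, hsum]
    have h10 : 2 * e' * (∑ i, a i + ∑ i, c i) = 2 * e' * (∑ i, b i + d * (m * w)) := by
      calc 2 * e' * (∑ i, a i + ∑ i, c i) = 2 * (e' * ∑ i, a i) + 2 * e' * ∑ i, c i := by ring
        _ = 2 * (e' * (∑ i, b i + d * (m * w))) := h8
        _ = _ := by ring
    exact Nat.eq_of_mul_eq_mul_left (by omega) h10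
  have h10 := (Finset.sum_eq_sum_iff_of_le (fun i _ => hk6 i)).mp h9
  have h11 := hk7 i₀ (h10 i₀ (Finset.mem_univ i₀))
  rw [hq5 i₀ rfl] at h11
  exact h11

/-- the form is non-degenerate on stable subspaces -/
theorem key_nondeg8 (bal : ST_BAL7) (lin2 : ST_LIN2) (lin8 : ST_LIN8)
    (pro8 : ST_PRO8) (hcyc : ST_CYC) (hS : ∀ p ∈ S, p.Prime)
    (M : QMot F S n w h) (l : ℕ) [Fact l.Prime] (H : Subgroup (Gal F))
    (hH : IsOpen (H : Set (Gal F))) (m : ℕ)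
    (B : Matrix (Fin n) (Fin m) ℚ_[l]) (A : H → Matrix (Fin m) (Fin m) ℚ_[l])
    (hs : IsSub ((mat (M.ρ l)).comp H.subtype) B A) (p : ℕ) (hp : p.Prime) (hpl : p ≠ l)
    (hD : M.Dis8 l p) (𝔓 : Ideal (Zb F)) (h𝔓 : Over p 𝔓) (μ : Multiset ℕ)
    (hJ : M.JTyp8 l p 𝔓 μ) (hnd : μ.Nodup) :
    (B.transpose * bas ℚ_[l] M.ψ * B).det ≠ 0 ∧ ∀ σ : H,
      (A σ).det ^ 2 * (((cyc l F (σ : Gal F) : ℤ_[l]ˣ) : ℤ_[l]) : ℚ_[l]) ^ (w * m) = 1 := by
  set G : Matrix (Fin m) (Fin m) ℚ_[l] := B.transpose * bas ℚ_[l] M.ψ * B with hG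
  have hAG : ∀ σ : H, (((cyc l F (σ : Gal F) : ℤ_[l]ˣ) : ℤ_[l]) : ℚ_[l]) ^ w •
      ((A σ).transpose * G * A σ) = G := by
    intro σ
    have h1 := M.ψ_gal l σ
    have h2 : mat (M.ρ l) σ * B = B * A σ := hs.2 σ
    have h3 : (A σ).transpose * G * A σ = B.transpose * ((mat (M.ρ l) σ).transpose *
        bas ℚ_[l] M.ψ * mat (M.ρ l) σ) * B := by
      rw [hG]
      calc (A σ).transpose * (B.transpose * bas ℚ_[l] M.ψ * B) * A σ =
          (B * A σ).transpose * bas ℚ_[l] M.ψ * (B * A σ) := by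
            rw [Matrix.transpose_mul]; simp only [Matrix.mul_assoc]
        _ = _ := by rw [← h2, Matrix.transpose_mul]; simp only [Matrix.mul_assoc]
    rw [h3, ← Matrix.smul_mul, ← Matrix.mul_smul, h1]
  have hdet : G.det ≠ 0 := by
    intro h0
    obtain ⟨v, hv, hGv⟩ := Matrix.exists_mulVec_eq_zero_iff.mpr h0
    let W : Submodule ℚ_[l] (Fin n → ℚ_[l]) := (LinearMap.ker G.mulVecLin).map B.mulVecLin
    have hW : ∀ g : H, ∀ u ∈ W, (((mat (M.ρ l)).comp H.subtype) g).mulVec u ∈ W := by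
      rintro g _ ⟨u, hu, rfl⟩
      refine ⟨(A g).mulVec u, ?_, ?_⟩
      · have h1 : G.mulVec u = 0 := hu
        rw [← hAG g, Matrix.smul_mulVec, ← Matrix.mulVec_mulVec, ← Matrix.mulVec_mulVec] at h1
        have hc0 : (((cyc l F (g : Gal F) : ℤ_[l]ˣ) : ℤ_[l]) : ℚ_[l]) ^ w ≠ 0 := by
          apply pow_ne_zero
          have h5 := (cyc l F (g : Gal F)).ne_zero
          exact fun h6 => h5 (Subtype.ext h6)
        have h2 := (smul_eq_zero.mp h1).resolve_left hc0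
        have h3 : (A g⁻¹).transpose * (A g).transpose = 1 := by
          rw [← Matrix.transpose_mul, sub_hom _ B A hs g, Matrix.transpose_one]
        have h4 : (A g⁻¹).transpose.mulVec ((A g).transpose.mulVec (G.mulVec ((A g).mulVec u))) =
            0 := by rw [h2, Matrix.mulVec_zero]
        rw [Matrix.mulVec_mulVec, h3, Matrix.one_mulVec] at h4
        exact h4
      · change B.mulVec ((A g).mulVec u) = (((mat (M.ρ l)).comp H.subtype) g).mulVec (B.mulVec u)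
        rw [Matrix.mulVec_mulVec, Matrix.mulVec_mulVec, hs.2 g]
    obtain ⟨B', A', hs', hrange⟩ := isSub_of_stable ((mat (M.ρ l)).comp H.subtype) W hW
    have hpos : 0 < Module.finrank ℚ_[l] W := by
      rw [Nat.pos_iff_ne_zero, Ne, Submodule.finrank_eq_zero]
      intro h1
      have h2 : B.mulVec v ∈ W := ⟨v, hGv, rfl⟩
      rw [h1, Submodule.mem_bot] at h2
      obtain ⟨C, hC⟩ := hs.1
      have h3 : C.mulVec (B.mulVec v) = 0 := by rw [h2, Matrix.mulVec_zero]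
      rw [Matrix.mulVec_mulVec, hC, Matrix.one_mulVec] at h3
      exact hv h3
    have h1 := (key_all8 bal lin2 lin8 pro8 hcyc hS M l H hH _ B' A' hs' p hp hpl hD 𝔓 h𝔓 μ
      hJ).2 hnd hpos
    apply h1
    have hzero : ∀ u v : Fin (Module.finrank ℚ_[l] W) → ℚ_[l],
        dotProduct u ((B'.transpose * bas ℚ_[l] M.ψ * B').mulVec v) = 0 := by
      intro u v
      have hu : B'.mulVec u ∈ W := hrange.le ⟨u, rfl⟩
      have hv : B'.mulVec v ∈ W := hrange.le ⟨v, rfl⟩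
      obtain ⟨u', hu', hu2⟩ := hu
      obtain ⟨v', hv', hv2⟩ := hv
      have h2 : ∀ {a : ℕ} (D : Matrix (Fin n) (Fin a) ℚ_[l]) (x y : Fin a → ℚ_[l]),
          dotProduct x ((D.transpose * bas ℚ_[l] M.ψ * D).mulVec y) =
          dotProduct (D.mulVec x) ((bas ℚ_[l] M.ψ).mulVec (D.mulVec y)) := by
        intro a D x y
        rw [Matrix.dotProduct_mulVec, Matrix.dotProduct_mulVec, Matrix.dotProduct_mulVec,
          ← Matrix.vecMul_transpose, Matrix.vecMul_vecMul, Matrix.vecMul_vecMul, Matrix.mul_assoc]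
      have hu3 : B.mulVec u' = B'.mulVec u := hu2
      have hv3 : B.mulVec v' = B'.mulVec v := hv2
      rw [h2, ← hu3, ← hv3, ← h2, ← hG]
      have h3 : G.mulVec v' = 0 := hv'
      rw [h3, dotProduct_zero]
    ext i j
    have h2 := hzero (Pi.single i 1) (Pi.single j 1)
    rw [Matrix.mulVec_single_one, single_dotProduct, one_mul] at h2
    exact h2
  refine ⟨hdet, ?_⟩
  intro σ
  have h1 := congrArg Matrix.det (hAG σ)
  rw [Matrix.det_smul, Matrix.det_mul, Matrix.det_mul, Matrix.det_transpose, Fintype.card_fin,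
    ← pow_mul] at h1
  apply mul_right_cancel₀ hdet
  rw [one_mul]
  calc (A σ).det ^ 2 * (((cyc l F (σ : Gal F) : ℤ_[l]ˣ) : ℤ_[l]) : ℚ_[l]) ^ (w * m) * G.det =
      (((cyc l F (σ : Gal F) : ℤ_[l]ˣ) : ℤ_[l]) : ℚ_[l]) ^ (w * m) *
        ((A σ).det * G.det * (A σ).det) := by ring
    _ = G.det := h1

theorem st_IRR8 (bal : ST_BAL7) (cyi : ST_CYI) (lin2 : ST_LIN2) (lin8 : ST_LIN8)
    (pro8 : ST_PRO8) (hcyc : ST_CYC) (fre : ST_FRE) : ST_IRR8 := by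
  intro F _ _ S hS n w h M l _ hex H hH m B A hs
  by_contra hcon
  push Not at hcon
  obtain ⟨hm0, hmn⟩ := hcon
  have hmle : m ≤ n := by
    obtain ⟨⟨C, hC⟩, -⟩ := hs
    have h1 : (C * B).rank = m := by
      rw [hC, Matrix.rank_one, Fintype.card_fin]
    have h2 := Matrix.rank_mul_le_left C B
    have h3 := Matrix.rank_le_width C
    omega
  obtain ⟨p, 𝔓₁, μ, hp, hpl, hD, h𝔓₁, hJ₁, hcases⟩ := hex m (by omega) (by omega)
  rcases hcases with hT | ⟨hnd, h1⟩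
  · obtain ⟨T, hTΛ, hTm⟩ := (key_all8 bal lin2 lin8 pro8 hcyc hS M l H hH m B A hs p hp hpl hD 𝔓₁
      h𝔓₁ μ hJ₁).1
    exact hT T hTΛ hTm
  · have h2 := (key_nondeg8 bal lin2 lin8 pro8 hcyc hS M l H hH m B A hs p hp hpl hD 𝔓₁ h𝔓₁ μ
      hJ₁ hnd).2
    obtain ⟨e, he, hHT⟩ := M.hodgeTate' l H hH m B A hs
    obtain ⟨𝔓, h𝔓, -⟩ := (fre F l Fact.out).1
    obtain ⟨J, hJ, hHT2⟩ := hHT 𝔓 h𝔓
    have h3 := h1 J hJ
    -- the cyclotomic character has finite order on inertia at `𝔓`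
    have h4 : ∀ σ ∈ H, CongPow 𝔓 1 σ →
        (cyc l F σ) ^ (2 * (∑ j ∈ J, h j) * e) = (cyc l F σ) ^ (w * m * e) := by
      intro σ hσ hσ2
      have h5 := h2 ⟨σ, hσ⟩
      have h6 := hHT2 ⟨σ, hσ⟩ hσ2
      have h7 : (((cyc l F σ : ℤ_[l]ˣ) : ℤ_[l]) : ℚ_[l]) ^ (2 * (∑ j ∈ J, h j) * e) =
          (((cyc l F σ : ℤ_[l]ˣ) : ℤ_[l]) : ℚ_[l]) ^ (w * m * e) := by
        have hA0 : (A ⟨σ, hσ⟩).det ^ (2 * e) ≠ 0 := by
          apply pow_ne_zero
          intro h0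
          rw [h0] at h5
          simp at h5
        apply mul_left_cancel₀ hA0
        have h8 : (A ⟨σ, hσ⟩).det ^ (2 * e) *
            (((cyc l F σ : ℤ_[l]ˣ) : ℤ_[l]) : ℚ_[l]) ^ (2 * (∑ j ∈ J, h j) * e) = 1 := by
          calc (A ⟨σ, hσ⟩).det ^ (2 * e) *
            (((cyc l F σ : ℤ_[l]ˣ) : ℤ_[l]) : ℚ_[l]) ^ (2 * (∑ j ∈ J, h j) * e) =
            (((A ⟨σ, hσ⟩).det * (((cyc l F σ : ℤ_[l]ˣ) : ℤ_[l]) : ℚ_[l]) ^
              (∑ j ∈ J, h j)) ^ e) ^ 2 := by ring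
            _ = 1 := by rw [h6, one_pow]
        have h9 : (A ⟨σ, hσ⟩).det ^ (2 * e) *
            (((cyc l F σ : ℤ_[l]ˣ) : ℤ_[l]) : ℚ_[l]) ^ (w * m * e) = 1 := by
          calc (A ⟨σ, hσ⟩).det ^ (2 * e) *
            (((cyc l F σ : ℤ_[l]ˣ) : ℤ_[l]) : ℚ_[l]) ^ (w * m * e) =
            ((A ⟨σ, hσ⟩).det ^ 2 *
              (((cyc l F σ : ℤ_[l]ˣ) : ℤ_[l]) : ℚ_[l]) ^ (w * m)) ^ e := by ring
            _ = 1 := by rw [h5, one_pow]
        rw [h8, h9]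
      apply Units.ext
      apply Subtype.ext
      push_cast
      exact h7
    have hne : 2 * (∑ j ∈ J, h j) * e ≠ w * m * e := by
      intro h5
      apply h3
      rw [mul_comm m w]
      exact Nat.eq_of_mul_eq_mul_right (by omega) h5
    rcases lt_or_gt_of_ne hne with h5 | h5
    · obtain ⟨σ, hσ, hσ2, hσ3⟩ := cyi F l H hH 𝔓 h𝔓
        (w * m * e - 2 * (∑ j ∈ J, h j) * e) (by omega)
      apply hσ3
      have h6 := h4 σ hσ hσ2
      rw [← Nat.add_sub_cancel' h5.le, pow_add] at h6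
      exact (mul_eq_left.mp h6.symm)
    · obtain ⟨σ, hσ, hσ2, hσ3⟩ := cyi F l H hH 𝔓 h𝔓
        (2 * (∑ j ∈ J, h j) * e - w * m * e) (by omega)
      apply hσ3
      have h6 := h4 σ hσ hσ2
      rw [← Nat.add_sub_cancel' h5.le, pow_add] at h6
      exact (mul_eq_left.mp h6)

end MT
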