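import Pool.Agent.Helper21.MT8.Stmts
import Pool.Agent.Helper21.MT7.IRR7

/-!
# IRR8: one place
-/

set_option autoImplicit false
set_option maxHeartbeats 1000000

open NumberField MU

namespace MT

/-- the combinatorial inequality -/
theorem comb8 (i : ℕ) (u : ℕ → ℕ) (hu : ∀ j, 1 ≤ j → j + 1 ≤ i → u (j + 1) ≤ u j) :
    ∑ j ∈ Finset.Icc 1 i, (i - 1) * u j ≤ ∑ j ∈ Finset.Icc 1 i, 2 * ((i - j) * u j) ∧
    (∑ j ∈ Finset.Icc 1 i, (i - 1) * u j = ∑ j ∈ Finset.Icc 1 i, 2 * ((i - j) * u j) →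
      ∀ j ∈ Finset.Icc 1 i, u j = u 1) := by
  have hmono : ∀ a b : ℕ, 1 ≤ a → a ≤ b → b ≤ i → u b ≤ u a := by
    intro a b ha hab
    induction b, hab using Nat.le_induction with
    | base => intro _; exact le_rfl
    | succ b hab ih =>
      intro hb
      exact le_trans (hu b (le_trans ha hab) hb) (ih (by omega))
  -- the difference, over the integers
  have hD : (∑ j ∈ Finset.Icc 1 i, (2 * ((i - j) * u j) : ℕ) : ℤ) -
      (∑ j ∈ Finset.Icc 1 i, ((i - 1) * u j : ℕ) : ℤ) =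
      ∑ j ∈ Finset.Icc 1 i, ((i : ℤ) + 1 - 2 * j) * u j := by
    rw [← Finset.sum_sub_distrib]
    apply Finset.sum_congr rfl
    intro j hj
    rw [Finset.mem_Icc] at hj
    have h1 : 1 ≤ i := le_trans hj.1 hj.2
    push_cast [Nat.cast_sub hj.2, Nat.cast_sub h1]
    ring
  have hflip : ∑ j ∈ Finset.Icc 1 i, ((i : ℤ) + 1 - 2 * j) * u j =
      ∑ j ∈ Finset.Icc 1 i, (-((i : ℤ) + 1 - 2 * j)) * u (i + 1 - j) := by
    apply Finset.sum_nbij' (fun j => i + 1 - j) (fun j => i + 1 - j)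
    · intro j hj
      rw [Finset.mem_Icc] at hj ⊢
      omega
    · intro j hj
      rw [Finset.mem_Icc] at hj ⊢
      omega
    · intro j hj
      rw [Finset.mem_Icc] at hj
      omega
    · intro j hj
      rw [Finset.mem_Icc] at hj
      omega
    · intro j hj
      rw [Finset.mem_Icc] at hj
      have h1 : i + 1 - (i + 1 - j) = j := by omega
      rw [h1, Nat.cast_sub (by omega : j ≤ i + 1)]
      push_cast
      ring
  have h2D : 2 * ∑ j ∈ Finset.Icc 1 i, ((i : ℤ) + 1 - 2 * j) * u j =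
      ∑ j ∈ Finset.Icc 1 i, ((i : ℤ) + 1 - 2 * j) * ((u j : ℤ) - u (i + 1 - j)) := by
    rw [two_mul]
    conv_lhs =>
      arg 2
      rw [hflip]
    rw [← Finset.sum_add_distrib]
    apply Finset.sum_congr rfl
    intro j _
    ring
  have hterm : ∀ j ∈ Finset.Icc 1 i,
      0 ≤ ((i : ℤ) + 1 - 2 * j) * ((u j : ℤ) - u (i + 1 - j)) := by
    intro j hj
    rw [Finset.mem_Icc] at hj
    by_cases h1 : 2 * j ≤ i + 1
    · have h2 := hmono j (i + 1 - j) hj.1 (by omega) (by omega)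
      apply mul_nonneg
      · omega
      · omega
    · have h2 := hmono (i + 1 - j) j (by omega) (by omega) hj.2
      apply mul_nonneg_of_nonpos_of_nonpos
      · omega
      · omega
  have hsum := Finset.sum_nonneg hterm
  constructor
  · have h3 : (0 : ℤ) ≤ ∑ j ∈ Finset.Icc 1 i, ((i : ℤ) + 1 - 2 * j) * u j := by
      rw [← h2D] at hsum
      linarith
    rw [← hD] at h3
    push_cast at h3
    zify
    push_cast
    linarith
  · intro heq
    have h3 : ∑ j ∈ Finset.Icc 1 i, ((i : ℤ) + 1 - 2 * j) * ((u j : ℤ) - u (i + 1 - j)) = 0 := by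
      rw [← h2D, ← hD, ← Nat.cast_sum, ← Nat.cast_sum, heq, sub_self, mul_zero]
    rw [Finset.sum_eq_zero_iff_of_nonneg hterm] at h3
    intro j hj
    rw [Finset.mem_Icc] at hj
    have h4 := h3 1 (Finset.mem_Icc.mpr ⟨le_rfl, by omega⟩)
    have h5 := hmono 1 j le_rfl hj.1 hj.2
    have h6 := hmono j i hj.1 hj.2 le_rfl
    rcases mul_eq_zero.mp h4 with h7 | h7
    · have : j = 1 := by push_cast at h7; omega
      rw [this]
    · have h8 : i + 1 - 1 = i := by omega
      rw [h8] at h7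
      omega

variable {F : Type} [Field F] [NumberField F] {S : Finset ℕ} {n w : ℕ} {h : Fin n → ℕ}

/-- the situation at one place -/
theorem key_place8 (lin2 : ST_LIN2) (lin8 : ST_LIN8) (hcyc : ST_CYC) (M : QMot F S n w h) (l : ℕ)
    [Fact l.Prime] (H : Subgroup (Gal F)) (e : ℕ) (he : 1 ≤ e) (hHe : ∀ g : Gal F, g ^ e ∈ H)
    (m : ℕ) (B : Matrix (Fin n) (Fin m) ℚ_[l]) (A : H → Matrix (Fin m) (Fin m) ℚ_[l])
    (hs : IsSub ((mat (M.ρ l)).comp H.subtype) B A) (p : ℕ) (hp : p.Prime) (hpl : p ≠ l)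
    (𝔔 : Ideal (Zb F)) (h𝔔 : Over p 𝔔) (k : ℕ) (hk : 1 ≤ k) (x : H)
    (hx : CongPow 𝔔 (p ^ k) (x : Gal F)) (μ : Multiset ℕ) (hJ : M.JTyp8 l p 𝔔 μ) :
    ∃ (ι : Type) (_ : Fintype ι) (m' : ι → ℕ) (R' : ι → ℝ) (P' : ι → Polynomial ℤ)
      (Q' : ι → Polynomial ℚ_[l]) (a b r : ℕ), (∀ i, (P' i).Monic) ∧
      (∀ i (z : ℂ), ((P' i).map (Int.castRingHom ℂ)).IsRoot z → ‖z‖ ^ 2 = R' i) ∧
      (∀ i, (Q' i).Monic ∧ (Q' i).natDegree = m' i ∧ Q' i ∣ (P' i).map (Int.castRingHom ℚ_[l])) ∧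
      (∏ i, ((-1) ^ (m' i) * (Q' i).coeff 0)) ^ 2 * (A x).det ^ 2 * (p : ℚ_[l]) ^ a =
        (p : ℚ_[l]) ^ b ∧
      ∏ i, R' i ^ (m' i) = (p : ℝ) ^ r ∧ a + r ≤ b + k * (m * w) ∧
      (a + r = b + k * (m * w) → (∃ T ≤ μ, T.sum = m) ∧
        (μ.Nodup → 0 < m → B.transpose * bas ℚ_[l] M.ψ * B ≠ 0)) := by
  classical
  have hp0 : (p : ℚ_[l]) ≠ 0 := by
    rw [Nat.cast_ne_zero]
    exact hp.ne_zero
  by_cases hnd : μ.Nodup
  · -- pairwise distinct sizes
    obtain ⟨τ, hτ, hr, hconj, -⟩ := hJ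
    have hded : μ.toFinset.val = μ := by
      rw [Multiset.toFinset_val]
      exact hnd.dedup
    have hJ' : M.JTyp l p 𝔔 μ.toFinset := by
      refine ⟨τ, hτ, ?_, hconj⟩
      intro k
      rw [hr k, Finset.sum, hded]
    obtain ⟨f, hf1, hf2, hf3, hf4⟩ := key_place lin2 hcyc M l H e he hHe m B A hs p hp hpl 𝔔 h𝔔 k hk x
      hx μ.toFinset hJ'
    refine ⟨Empty, inferInstance, fun _ => 0, fun _ => 0, fun _ => 1, fun _ => 1, k * (m * w),
      k * ∑ i ∈ μ.toFinset, f i * (i - f i), 0, fun i => i.elim, fun i => i.elim, fun i => i.elim,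
      ?_, ?_, ?_, ?_⟩
    · rw [Finset.univ_eq_empty, Finset.prod_empty, one_pow, one_mul]
      exact hf3
    · rw [Finset.univ_eq_empty, Finset.prod_empty, pow_zero]
    · omega
    · intro heq
      have h1 : k * ∑ i ∈ μ.toFinset, f i * (i - f i) = 0 := by omega
      have h2 : ∀ i ∈ μ.toFinset, f i = 0 ∨ f i = i := by
        intro j hj
        rcases Nat.mul_eq_zero.mp h1 with h7 | h7
        · omega
        · have h8 := Finset.sum_eq_zero_iff.mp h7 j hj
          have h9 := hf1 j hj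
          rcases Nat.mul_eq_zero.mp h8 with h10 | h10
          · exact Or.inl h10
          · right
            omega
      refine ⟨⟨(μ.toFinset.filter (fun j => f j ≠ 0)).val, ?_, ?_⟩, fun _ => hf4 h2⟩
      · have h3 : (μ.toFinset.filter (fun j => f j ≠ 0)).val ≤ μ.toFinset.val :=
          Finset.val_le_iff.mpr (Finset.filter_subset _ _)
        rwa [hded] at h3
      · have h3 : (μ.toFinset.filter (fun j => f j ≠ 0)).val.sum =
            ∑ j ∈ μ.toFinset.filter (fun j => f j ≠ 0), j := by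
          rw [Finset.sum, Multiset.map_id']
        rw [h3, ← hf2, Finset.sum_filter]
        apply Finset.sum_congr rfl
        intro j hj
        rcases h2 j hj with h6 | h6
        · rw [if_neg (by rw [not_not]; exact h6), h6]
        · by_cases h7 : f j = 0
          · rw [if_neg (by rw [not_not]; exact h7), h7]
          · rw [if_pos h7, h6]
  · -- purity
    obtain ⟨τ, hτ, hr, hconj, hpure⟩ := hJ
    have hpure' := hpure.resolve_left hnd
    obtain ⟨⟨C, hCB⟩, hA⟩ := hs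
    have hPex : ∀ i : ℕ, ∃ P : Polynomial ℤ, 1 ≤ i → P.Monic ∧
        (∀ z : ℂ, (P.map (Int.castRingHom ℂ)).IsRoot z →
          ‖z‖ ^ 2 = (p : ℝ) ^ (k * (w + i - 1))) ∧
        ∀ v : Fin n → ℚ_[l], ((mat (M.ρ l) τ - 1) ^ i).mulVec v = 0 → ∃ a b : Fin n → ℚ_[l],
          ((mat (M.ρ l) τ - 1) ^ (i - 1)).mulVec a = 0 ∧
          ((mat (M.ρ l) τ - 1) ^ (i + 1)).mulVec b = 0 ∧
          (Polynomial.aeval (mat (M.ρ l) (x : Gal F)⁻¹) P).mulVec v =
            a + (mat (M.ρ l) τ - 1).mulVec b := by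
      intro i
      by_cases hi : 1 ≤ i
      · obtain ⟨P, hP⟩ := hpure' k x hk hx i hi
        exact ⟨P, fun _ => hP⟩
      · exact ⟨1, fun h => absurd h hi⟩
    choose P hP using hPex
    -- the unipotent matrix
    have hτe : (mat (M.ρ l) (τ ^ e)) = (mat (M.ρ l) τ) ^ e := map_pow _ _ _
    have hXt : mat (M.ρ l) x * (mat (M.ρ l) τ) ^ e =
        ((mat (M.ρ l) τ) ^ e) ^ (p ^ k) * mat (M.ρ l) x := by
      have h1 := hconj k x hk hx
      have h2 : M.ρ l x * M.ρ l τ = (M.ρ l τ) ^ (p ^ k) * M.ρ l x := by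
        rw [← h1, map_mul, map_mul, map_inv, inv_mul_cancel_right]
      have h3 : mat (M.ρ l) x * mat (M.ρ l) τ = (mat (M.ρ l) τ) ^ (p ^ k) * mat (M.ρ l) x := by
        have := congrArg (fun z : Matrix.GeneralLinearGroup (Fin n) ℚ_[l] =>
          (z : Matrix (Fin n) (Fin n) ℚ_[l])) h2
        simpa [mat] using this
      have h4 : SemiconjBy (mat (M.ρ l) x) (mat (M.ρ l) τ) ((mat (M.ρ l) τ) ^ (p ^ k)) := h3
      have h5 := (h4.pow_right e).eq
      rw [h5, ← pow_mul, ← pow_mul, mul_comm]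
    have hnil : IsNilpotent (mat (M.ρ l) τ - 1) := by
      refine ⟨μ.sum, ?_⟩
      have h0 : (μ.map fun i => i - μ.sum).sum = 0 := by
        apply Multiset.sum_eq_zero
        intro y hy
        rw [Multiset.mem_map] at hy
        obtain ⟨i, hi, rfl⟩ := hy
        have := Multiset.single_le_sum (fun _ _ => Nat.zero_le _) i hi
        omega
      have h1 := hr μ.sum
      rw [h0] at h1
      unfold Matrix.rank at h1
      rw [Submodule.finrank_eq_zero, LinearMap.range_eq_bot] at h1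
      rw [← Matrix.toLin'_apply'] at h1
      exact (map_eq_zero_iff _ (Matrix.toLin' (R := ℚ_[l])).injective).mp h1
    have he2 : (e : ℚ_[l]) ≠ 0 := by
      rw [Nat.cast_ne_zero]
      omega
    obtain ⟨E, hE, hEu, hEc⟩ := pow_sub_one_unit (K := ℚ_[l]) (mat (M.ρ l) τ) e hnil he2
    obtain ⟨E', hE'⟩ := hEu
    have hrt : ∀ j : ℕ, (((mat (M.ρ l) τ) ^ e - 1) ^ j).rank = (μ.map fun i => i - j).sum := by
      intro j
      rw [hE, hEc.mul_pow, Matrix.rank_mul_eq_left_of_isUnit_det, hr]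
      rw [← Matrix.isUnit_iff_isUnit_det, ← hE']
      exact E'.isUnit.pow j
    have hEc' : Commute (mat (M.ρ l) τ - 1) ((E'⁻¹ : (Matrix (Fin n) (Fin n) ℚ_[l])ˣ) :
        Matrix (Fin n) (Fin n) ℚ_[l]) := by
      rw [← hE'] at hEc
      exact hEc.units_inv_right
    have hxinv : (mat (M.ρ l) (x : Gal F))⁻¹ = mat (M.ρ l) (x : Gal F)⁻¹ := by
      apply Matrix.inv_eq_right_inv
      rw [← map_mul, mul_inv_cancel, map_one]
    have hxdet : (mat (M.ρ l) (x : Gal F)).det ≠ 0 := by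
      have h1 : (mat (M.ρ l) (x : Gal F) * mat (M.ρ l) (x : Gal F)⁻¹).det = 1 := by
        rw [← map_mul, mul_inv_cancel, map_one, Matrix.det_one]
      rw [Matrix.det_mul] at h1
      intro h2
      rw [h2, zero_mul] at h1
      exact zero_ne_one h1
    have h2p : 2 ≤ p ^ k := le_trans hp.two_le (Nat.le_self_pow (by omega) p)
    have hkerE : ∀ (j : ℕ) (v : Fin n → ℚ_[l]), (((mat (M.ρ l) τ) ^ e - 1) ^ j).mulVec v = 0 ↔
        ((mat (M.ρ l) τ - 1) ^ j).mulVec v = 0 := by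
      intro j v
      have h1 : ((mat (M.ρ l) τ) ^ e - 1) ^ j = E ^ j * (mat (M.ρ l) τ - 1) ^ j := by
        rw [hE, hEc.mul_pow, ((hEc.pow_pow j j).eq)]
      rw [h1, ← Matrix.mulVec_mulVec]
      constructor
      · intro h2
        have h3 : (((E' ^ j)⁻¹ : (Matrix (Fin n) (Fin n) ℚ_[l])ˣ) :
            Matrix (Fin n) (Fin n) ℚ_[l]).mulVec
              ((E ^ j).mulVec (((mat (M.ρ l) τ - 1) ^ j).mulVec v)) = 0 := by
          rw [h2, Matrix.mulVec_zero]
        rw [← hE', ← Units.val_pow_eq_pow_val, Matrix.mulVec_mulVec, Units.inv_mul,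
          Matrix.one_mulVec] at h3
        exact h3
      · intro h2
        rw [h2, Matrix.mulVec_zero]
    obtain ⟨u, R, hu1, hu2, hu3, hu4, hu5⟩ := lin8 ℚ_[l] n m (p ^ k) h2p μ
      ((mat (M.ρ l) τ) ^ e) (mat (M.ρ l) x) P B C (A ⟨τ ^ e, hHe τ⟩) (A x) hxdet hXt hrt
      (by
        intro i hi
        refine ⟨(hP i hi).1, ?_⟩
        intro v hv
        rw [hkerE] at hv
        obtain ⟨a, b, ha, hb, hab⟩ := (hP i hi).2.2 v hv
        refine ⟨a, ((E'⁻¹ : (Matrix (Fin n) (Fin n) ℚ_[l])ˣ) :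
          Matrix (Fin n) (Fin n) ℚ_[l]).mulVec b, ?_, ?_, ?_⟩
        · rw [hkerE]
          exact ha
        · rw [hkerE, Matrix.mulVec_mulVec, (hEc'.pow_left (i + 1)).eq, ← Matrix.mulVec_mulVec, hb,
            Matrix.mulVec_zero]
        · rw [hxinv, hab, hE, Matrix.mulVec_mulVec, Matrix.mul_assoc, ← hE', Units.mul_inv,
            Matrix.mul_one])
      hCB (by rw [← hτe]; exact hA ⟨τ ^ e, hHe τ⟩) (hA x)
    -- the family
    let s : Finset (Σ _ : ℕ, ℕ) := μ.toFinset.sigma (fun i => Finset.Icc 1 i)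
    have hs1 : ∀ y : s, 1 ≤ (y : Σ _ : ℕ, ℕ).1 := by
      rintro ⟨⟨i, j⟩, hy⟩
      have h1 := (Finset.mem_sigma.mp hy).2
      rw [Finset.mem_Icc] at h1
      exact le_trans h1.1 h1.2
    have hprod : ∀ {N : Type} [CommMonoid N] (g : ℕ → ℕ → N),
        ∏ y : s, g (y : Σ _ : ℕ, ℕ).2 (y : Σ _ : ℕ, ℕ).1 =
          ∏ i ∈ μ.toFinset, ∏ j ∈ Finset.Icc 1 i, g j i := by
      intro N _ g
      rw [Finset.prod_coe_sort s (fun y => g y.2 y.1)]
      exact Finset.prod_sigma μ.toFinset (fun i => Finset.Icc 1 i) (fun y => g y.2 y.1)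
    -- the comparison
    have hcomb := fun i => comb8 i (fun j => u j i) (hu1 i)
    have hle : ∑ i ∈ μ.toFinset, ∑ j ∈ Finset.Icc 1 i, (i - 1) * u j i ≤
        ∑ i ∈ μ.toFinset, ∑ j ∈ Finset.Icc 1 i, 2 * ((i - j) * u j i) :=
      Finset.sum_le_sum fun i _ => (hcomb i).1
    have hr1 : ∑ i ∈ μ.toFinset, ∑ j ∈ Finset.Icc 1 i, (w + i - 1) * u j i =
        w * m + ∑ i ∈ μ.toFinset, ∑ j ∈ Finset.Icc 1 i, (i - 1) * u j i := by
      rw [← hu3, Finset.mul_sum, ← Finset.sum_add_distrib]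
      apply Finset.sum_congr rfl
      intro i _
      rw [Finset.mul_sum, ← Finset.sum_add_distrib]
      apply Finset.sum_congr rfl
      intro j hj
      rw [Finset.mem_Icc] at hj
      have : w + i - 1 = w + (i - 1) := by omega
      rw [this, add_mul]
    have hr2 : ∑ i ∈ μ.toFinset, ∑ j ∈ Finset.Icc 1 i, 2 * ((i - j) * u j i) =
        2 * ∑ i ∈ μ.toFinset, ∑ j ∈ Finset.Icc 1 i, (i - j) * u j i := by
      rw [Finset.mul_sum]
      apply Finset.sum_congr rfl
      intro i _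
      rw [Finset.mul_sum]
    refine ⟨s, inferInstance, fun y => u (y : Σ _ : ℕ, ℕ).2 (y : Σ _ : ℕ, ℕ).1,
      fun y => (p : ℝ) ^ (k * (w + (y : Σ _ : ℕ, ℕ).1 - 1)),
      fun y => (P (y : Σ _ : ℕ, ℕ).1) ^ n, fun y => R (y : Σ _ : ℕ, ℕ).2 (y : Σ _ : ℕ, ℕ).1, 0,
      k * (2 * ∑ i ∈ μ.toFinset, ∑ j ∈ Finset.Icc 1 i, (i - j) * u j i),
      k * ∑ i ∈ μ.toFinset, ∑ j ∈ Finset.Icc 1 i, (w + i - 1) * u j i, ?_, ?_, ?_, ?_, ?_, ?_, ?_⟩
    · intro y
      exact (hP _ (hs1 y)).1.pow n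
    · intro y z hz
      apply (hP _ (hs1 y)).2.1 z
      rw [Polynomial.map_pow] at hz
      have h1 : ((P (y : Σ _ : ℕ, ℕ).1).map (Int.castRingHom ℂ)).eval z ^ n = 0 := by
        rw [← Polynomial.eval_pow]
        exact hz
      have hn : n ≠ 0 := by
        intro h0
        rw [h0, pow_zero] at h1
        exact one_ne_zero h1
      exact (pow_eq_zero_iff hn).mp h1
    · intro y
      exact hu4 _ _ (hs1 y)
    · have h1 := hprod (N := ℚ_[l]) (fun j i => ((-1) ^ (u j i) * (R j i).coeff 0))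
      rw [h1, ← mul_pow, hu5, pow_zero, mul_one]
      push_cast
      rw [← pow_mul, ← pow_mul]
      congr 1
      ring
    · have h1 := hprod (N := ℝ) (fun j i => ((p : ℝ) ^ (k * (w + i - 1))) ^ (u j i))
      rw [h1, Finset.mul_sum, ← Finset.prod_pow_eq_pow_sum]
      apply Finset.prod_congr rfl
      intro i _
      rw [Finset.mul_sum, ← Finset.prod_pow_eq_pow_sum]
      apply Finset.prod_congr rfl
      intro j _
      rw [← pow_mul]
      congr 1
      ring
    · rw [zero_add, hr1, ← mul_add]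
      apply Nat.mul_le_mul_left
      rw [← hr2, mul_comm m w]
      omega
    · intro heq
      rw [zero_add, hr1, ← mul_add] at heq
      have heq2 := Nat.eq_of_mul_eq_mul_left (by omega) heq
      rw [← hr2, mul_comm m w] at heq2
      have heq3 : ∑ i ∈ μ.toFinset, ∑ j ∈ Finset.Icc 1 i, (i - 1) * u j i =
          ∑ i ∈ μ.toFinset, ∑ j ∈ Finset.Icc 1 i, 2 * ((i - j) * u j i) := by omega
      have heq4 := (Finset.sum_eq_sum_iff_of_le (fun i _ => (hcomb i).1)).mp heq3
      refine ⟨⟨∑ i ∈ μ.toFinset, Multiset.replicate (if 1 ≤ i then u 1 i else 0) i, ?_, ?_⟩,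
        fun h => absurd h hnd⟩
      · rw [Multiset.le_iff_count]
        intro a
        rw [Multiset.count_sum']
        simp only [Multiset.count_replicate]
        by_cases ha : a ∈ μ.toFinset
        · rw [Finset.sum_eq_single a]
          · rw [if_pos rfl]
            split_ifs with h1
            · exact hu2 a h1
            · exact Nat.zero_le _
          · intro i _ hia
            rw [if_neg hia]
          · intro h1
            exact absurd ha h1
        · rw [Finset.sum_eq_zero]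
          · exact Nat.zero_le _
          · intro i hi
            rw [if_neg]
            rintro rfl
            exact ha hi
      · have h1 : (∑ i ∈ μ.toFinset, Multiset.replicate (if 1 ≤ i then u 1 i else 0) i).sum =
            ∑ i ∈ μ.toFinset, (Multiset.replicate (if 1 ≤ i then u 1 i else 0) i).sum := by
          exact map_sum (Multiset.sumAddMonoidHom : Multiset ℕ →+ ℕ) _ _
        rw [h1, ← hu3]
        apply Finset.sum_congr rfl
        intro i hi
        rw [Multiset.sum_replicate, smul_eq_mul]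
        by_cases hi1 : 1 ≤ i
        · rw [if_pos hi1, Finset.sum_congr rfl ((hcomb i).2 (heq4 i hi)), Finset.sum_const,
            Nat.card_Icc, smul_eq_mul, Nat.add_sub_cancel, mul_comm]
        · have : i = 0 := by omega
          subst this
          simp

end MT
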