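import Pool.Agent.Helper21.MT7.LinC
import Pool.Agent.Helper21.MT7.LinD

/-!
# Graded pieces of filtrations
-/

set_option autoImplicit false

namespace MT

open Module

variable {K V : Type*} [Field K] [AddCommGroup V] [Module K V] [FiniteDimensional K V]

/-- a linear map which is injective on graded pieces -/
theorem gr_inj (g : V →ₗ[K] V) (A B A' B' : Submodule K V) (hAB : A ≤ B) (hAB' : A' ≤ B')
    (hg : ∀ v ∈ B, g v ∈ B') (hi : ∀ v ∈ B, g v ∈ A' → v ∈ A) :
    finrank K B - finrank K A ≤ finrank K B' - finrank K A' := by
  let A'' : Submodule K B' := A'.comap B'.subtype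
  let φ : B →ₗ[K] (B' ⧸ A'') := A''.mkQ.comp (g.restrict hg)
  have h1 := LinearMap.finrank_range_add_finrank_ker φ
  have h2 : finrank K (LinearMap.range φ) ≤ finrank K (B' ⧸ A'') := Submodule.finrank_le _
  have h3 : finrank K (LinearMap.ker φ) ≤ finrank K A := by
    have h4 : (LinearMap.ker φ).map B.subtype ≤ A := by
      rintro _ ⟨v, hv, rfl⟩
      apply hi v v.2
      have h5 : φ v = 0 := hv
      have h6 : A''.mkQ (g.restrict hg v) = 0 := h5
      rw [Submodule.mkQ_apply, Submodule.Quotient.mk_eq_zero] at h6
      exact h6
    have h5 := Submodule.finrank_mono h4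
    rw [Submodule.finrank_map_subtype_eq] at h5
    exact h5
  have h4 := Submodule.finrank_quotient_add_finrank A''
  have h5 : finrank K A'' = finrank K A' :=
    LinearEquiv.finrank_eq (Submodule.comapSubtypeEquivOfLe hAB')
  have h6 := Submodule.finrank_mono hAB
  omega

/-- a linear map which is surjective on graded pieces -/
theorem gr_surj (g : V →ₗ[K] V) (A B A' B' : Submodule K V) (hAB : A ≤ B) (hAB' : A' ≤ B')
    (hgA : ∀ v ∈ A, g v ∈ A') (hs : B' ≤ B.map g ⊔ A') :
    finrank K B' - finrank K A' ≤ finrank K B - finrank K A := by
  let φ : B →ₗ[K] (V ⧸ A') := A'.mkQ.comp (g.domRestrict B)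
  have h1 := LinearMap.finrank_range_add_finrank_ker φ
  have h2 : finrank K A ≤ finrank K (LinearMap.ker φ) := by
    have h4 : A.comap B.subtype ≤ LinearMap.ker φ := by
      intro v hv
      have h5 : A'.mkQ (g v) = 0 := by
        rw [Submodule.mkQ_apply, Submodule.Quotient.mk_eq_zero]
        exact hgA v hv
      exact h5
    have h5 := Submodule.finrank_mono h4
    have h6 : finrank K (A.comap B.subtype) = finrank K A :=
      LinearEquiv.finrank_eq (Submodule.comapSubtypeEquivOfLe hAB)
    omega
  have h3 : finrank K B' - finrank K A' ≤ finrank K (LinearMap.range φ) := by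
    have h4 : B'.map A'.mkQ ≤ LinearMap.range φ := by
      rintro _ ⟨v, hv, rfl⟩
      obtain ⟨_, ⟨x, hx, rfl⟩, y, hy, rfl⟩ := Submodule.mem_sup.mp (hs hv)
      refine ⟨⟨x, hx⟩, ?_⟩
      have h5 : A'.mkQ (g x + y) = A'.mkQ (g x) := by
        rw [map_add]
        have : A'.mkQ y = 0 := by
          rw [Submodule.mkQ_apply, Submodule.Quotient.mk_eq_zero]
          exact hy
        rw [this, add_zero]
      rw [h5]
      rfl
    have h5 := Submodule.finrank_mono h4
    have h6 : finrank K (B'.map A'.mkQ) = finrank K B' - finrank K A' := by
      have h7 := LinearMap.finrank_range_add_finrank_ker (A'.mkQ.domRestrict B')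
      rw [LinearMap.range_domRestrict] at h7
      have h8 : finrank K (LinearMap.ker (A'.mkQ.domRestrict B')) = finrank K A' := by
        have h9 : LinearMap.ker (A'.mkQ.domRestrict B') = A'.comap B'.subtype := by
          ext v
          rw [LinearMap.mem_ker, Submodule.mem_comap]
          change A'.mkQ (v : V) = 0 ↔ _
          rw [Submodule.mkQ_apply, Submodule.Quotient.mk_eq_zero]
          rfl
        rw [h9]
        exact LinearEquiv.finrank_eq (Submodule.comapSubtypeEquivOfLe hAB')
      omega
    omega
  omega

/-- the determinant on a step of a filtration, by the characteristic polynomial of an operator `Z`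
inverse to `X` up to a factor -/
theorem dR_gr (X Z : V →ₗ[K] V) (A B : Submodule K V) (hAB : A ≤ B) (hA : A ≤ A.comap X)
    (hB : B ≤ B.comap X) (hZA : A ≤ A.comap Z) (hZB : B ≤ B.comap Z) (c : K)
    (hXZ : ∀ v, Z (X v) = c • v) (P : Polynomial K) (N : ℕ) (hN : finrank K V ≤ N)
    (hP : ∀ v ∈ B, Polynomial.aeval Z P v ∈ A) :
    ∃ R : Polynomial K, R.Monic ∧ R.natDegree = finrank K B - finrank K A ∧ R ∣ P ^ N ∧
      dR X B * ((-1) ^ (finrank K B - finrank K A) * R.coeff 0) =
        dR X A * c ^ (finrank K B - finrank K A) := by
  rw [dR_eq X B hB, dR_eq X A hA]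
  set A' : Submodule K B := A.comap B.subtype with hA'
  set e : B →ₗ[K] B := X.restrict hB with he
  set z : B →ₗ[K] B := Z.restrict hZB with hz
  have hee : A' ≤ A'.comap e := fun v hv => hA hv
  have hzz : A' ≤ A'.comap z := fun v hv => hZA hv
  have h2 : finrank K A' = finrank K A :=
    LinearEquiv.finrank_eq (Submodule.comapSubtypeEquivOfLe hAB)
  have h3 : finrank K (B ⧸ A') = finrank K B - finrank K A := by
    have h4 := Submodule.finrank_quotient_add_finrank A'
    omega
  have h5 : X.restrict hA = ((Submodule.comapSubtypeEquivOfLe hAB : A' ≃ₗ[K] A) : A' →ₗ[K] A) ∘ₗ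
      (e.restrict hee) ∘ₗ ((Submodule.comapSubtypeEquivOfLe hAB : A' ≃ₗ[K] A).symm : A →ₗ[K] A') := by
    ext v
    rfl
  have h6 : LinearMap.det (X.restrict hA) = LinearMap.det (e.restrict hee) := by
    rw [h5, LinearMap.det_conj]
  rw [LinearMap.det_eq_det_mul_det A' e hee, h6]
  set q : (B ⧸ A') →ₗ[K] (B ⧸ A') := A'.mapQ A' z hzz with hq
  have hqq : LinearMap.det q * LinearMap.det (A'.mapQ A' e hee) = c ^ finrank K (B ⧸ A') := by
    rw [← LinearMap.det_comp]
    have h7 : q ∘ₗ (A'.mapQ A' e hee) = c • LinearMap.id := by
      ext v
      simp only [hq, LinearMap.coe_comp, Function.comp_apply, Submodule.mkQ_apply,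
        Submodule.mapQ_apply, LinearMap.smul_apply, LinearMap.id_coe, id_eq]
      rw [← Submodule.Quotient.mk_smul]
      congr 1
      apply Subtype.ext
      exact hXZ v
    rw [h7, LinearMap.det_smul, LinearMap.det_id, mul_one]
  have hPq : Polynomial.aeval q P = 0 := by
    have h7 : ∀ (P : Polynomial K) (v : B), Polynomial.aeval q P (A'.mkQ v) =
        A'.mkQ (Polynomial.aeval z P v) := by
      intro P v
      induction P using Polynomial.induction_on' with
      | add P Q hP hQ => simp only [map_add, LinearMap.add_apply, hP, hQ]
      | monomial k a =>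
        simp only [Polynomial.aeval_monomial, Module.End.mul_apply, Module.algebraMap_end_apply,
          map_smul]
        congr 1
        induction k generalizing v with
        | zero => rfl
        | succ k ih =>
          rw [pow_succ, pow_succ, Module.End.mul_apply, Module.End.mul_apply, ← ih]
          rfl
    have h8 : ∀ (P : Polynomial K) (v : B), ((Polynomial.aeval z P v : B) : V) =
        Polynomial.aeval Z P (v : V) := by
      intro P v
      induction P using Polynomial.induction_on' with
      | add P Q hP hQ => simp only [map_add, LinearMap.add_apply, Submodule.coe_add, hP, hQ]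
      | monomial k a =>
        simp only [Polynomial.aeval_monomial, Module.End.mul_apply, Module.algebraMap_end_apply,
          Submodule.coe_smul]
        congr 1
        induction k generalizing v with
        | zero => rfl
        | succ k ih =>
          rw [pow_succ, pow_succ, Module.End.mul_apply, Module.End.mul_apply, ih]
          rfl
    apply LinearMap.ext
    intro v
    obtain ⟨v, rfl⟩ := A'.mkQ_surjective v
    rw [h7, LinearMap.zero_apply, Submodule.mkQ_apply, Submodule.Quotient.mk_eq_zero]
    change ((Polynomial.aeval z P v : B) : V) ∈ A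
    rw [h8]
    exact hP v v.2
  refine ⟨q.charpoly, q.charpoly_monic, ?_, ?_, ?_⟩
  · rw [LinearMap.charpoly_natDegree, h3]
  · -- the characteristic polynomial divides a power
    have h7 : q.charpoly ∣ P ^ (finrank K (B ⧸ A')) := by
      let L := AlgebraicClosure K
      rw [← Polynomial.map_dvd_map' (algebraMap K L)]
      rw [← LinearMap.charpoly_baseChange]
      have h9 : ∀ r : L, (q.baseChange L).charpoly.IsRoot r →
          (Polynomial.X - Polynomial.C r) ∣ P.map (algebraMap K L) := by
        intro r hr
        rw [← Module.End.hasEigenvalue_iff_isRoot_charpoly] at hr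
        obtain ⟨v, hv⟩ := hr.exists_hasEigenvector
        rw [Polynomial.dvd_iff_isRoot]
        have h10 := Module.End.aeval_apply_of_hasEigenvector (p := P.map (algebraMap K L)) hv
        have h11 : Polynomial.aeval (q.baseChange L) (P.map (algebraMap K L)) = 0 := by
          rw [Polynomial.aeval_map_algebraMap]
          have h12 : ∀ P : Polynomial K, Polynomial.aeval (q.baseChange L) P =
              (Polynomial.aeval q P).baseChange L := by
            intro P
            exact Polynomial.aeval_algHom_apply (Module.End.baseChangeHom K L (B ⧸ A')) q P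
          rw [h12, hPq, LinearMap.baseChange_zero]
        rw [h11, LinearMap.zero_apply] at h10
        exact (smul_eq_zero.mp h10.symm).resolve_right hv.2
      have h10 := (IsAlgClosed.splits (q.baseChange L).charpoly).eq_prod_roots_of_monic
        (q.baseChange L).charpoly_monic
      rw [h10, Polynomial.map_pow]
      have h11 : Multiset.card (q.baseChange L).charpoly.roots = finrank K (B ⧸ A') := by
        have h12 := congrArg Polynomial.natDegree h10
        rw [Polynomial.natDegree_multiset_prod_X_sub_C_eq_card, LinearMap.charpoly_natDegree,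
          Module.finrank_baseChange] at h12
        exact h12.symm
      rw [← h11, ← Multiset.prod_replicate, ← Multiset.map_const']
      apply Multiset.prod_dvd_prod_of_dvd
      intro r hr
      exact h9 r (Polynomial.isRoot_of_mem_roots hr)
    apply dvd_trans h7
    apply pow_dvd_pow
    rw [h3]
    have := Submodule.finrank_le B
    omega
  · rw [← h3, ← LinearMap.det_eq_sign_charpoly_coeff, mul_assoc, mul_comm (LinearMap.det _) (LinearMap.det q),
      hqq]

end MT
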