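import Pool.Agent.Helper21.MT8.LinF

/-!
# Multisets of Jordan blocks
-/

set_option autoImplicit false

namespace MT

open Module

variable {K V : Type*} [Field K] [AddCommGroup V] [Module K V] [FiniteDimensional K V]

theorem ms_split (μ : Multiset ℕ) (k : ℕ) : (μ.map fun i => i - 0).sum =
    (μ.map fun i => i - k).sum + (μ.map fun i => min i k).sum := by
  induction μ using Multiset.induction with
  | empty => rfl
  | cons a μ ih =>
    simp only [Multiset.map_cons, Multiset.sum_cons]
    have : a - 0 = (a - k) + min a k := by omega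
    omega

theorem ms_second (μ : Multiset ℕ) (i : ℕ) (hi : 1 ≤ i) :
    (μ.map fun j => min j i).sum + (μ.map fun j => min j i).sum =
      (μ.map fun j => min j (i - 1)).sum + (μ.map fun j => min j (i + 1)).sum + μ.count i := by
  induction μ using Multiset.induction with
  | empty => rfl
  | cons a μ ih =>
    simp only [Multiset.map_cons, Multiset.sum_cons, Multiset.count_cons]
    split_ifs with h <;> omega

theorem kr_finrank8 (M : Module.End K V) (μ : Multiset ℕ)
    (hr : ∀ k : ℕ, finrank K (LinearMap.range (M ^ k)) = (μ.map fun i => i - k).sum) (k : ℕ) :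
    finrank K (kr M k) = (μ.map fun i => min i k).sum := by
  have h1 := LinearMap.finrank_range_add_finrank_ker (M ^ k)
  have h2 := LinearMap.finrank_range_add_finrank_ker (M ^ 0)
  have h3 : finrank K (LinearMap.ker (M ^ 0)) = 0 := by
    rw [pow_zero]
    have : LinearMap.ker (1 : Module.End K V) = ⊥ := LinearMap.ker_id
    rw [this, finrank_bot]
  rw [h3, add_zero, hr 0] at h2
  rw [hr k, ← h2, ms_split μ k] at h1
  exact Nat.add_left_cancel h1

theorem rr_codim8 (M : Module.End K V) (μ : Multiset ℕ)
    (hr : ∀ k : ℕ, finrank K (LinearMap.range (M ^ k)) = (μ.map fun i => i - k).sum) (i : ℕ)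
    (hi : 1 ≤ i) : finrank K (kr M i) = finrank K (rr M i) + μ.count i := by
  have h1 := rr_finrank M i hi
  rw [kr_finrank8 M μ hr, kr_finrank8 M μ hr, kr_finrank8 M μ hr] at h1
  rw [kr_finrank8 M μ hr]
  have h2 := ms_second μ i hi
  omega

theorem ww_gr_le (M : Module.End K V) (μ : Multiset ℕ)
    (hr : ∀ k : ℕ, finrank K (LinearMap.range (M ^ k)) = (μ.map fun i => i - k).sum) (j i : ℕ)
    (hj : 1 ≤ j) (hi : j ≤ i) :
    finrank K (ww M j i) - finrank K (ww M j (i + 1)) ≤ μ.count i := by
  have h1 := gr_surj (M ^ (i - j)) (rr M i) (kr M i) (ww M j (i + 1)) (ww M j i) (rr_le M i)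
    (ww_succ_le M j i hi) (fun v hv => rr_map M j i hj hi ⟨v, hv, rfl⟩) (by
      unfold ww
      rw [sup_comm]
      apply sup_le
      · exact le_sup_left
      · exact le_trans le_sup_left le_sup_right)
  have h2 := rr_codim8 M μ hr i (le_trans hj hi)
  omega

theorem inf_gr_le (U A B : Submodule K V) (hAB : A ≤ B) :
    finrank K ↥(U ⊓ B) - finrank K ↥(U ⊓ A) ≤ finrank K B - finrank K A :=
  gr_inj LinearMap.id (U ⊓ A) (U ⊓ B) A B (inf_le_inf_left U hAB) hAB (fun _ hv => hv.2)
    (fun _ hv hv2 => ⟨hv.1, hv2⟩)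

variable {M X G G' : Module.End K V} {Q : K}

/-- an injective operator preserving a subspace: its inverse preserves it as well -/
theorem inv_stable (X Y : Module.End K V) (hYX : Y * X = 1) (A : Submodule K V)
    (hA : A ≤ A.comap X) : A ≤ A.comap Y := by
  have hinj : Function.Injective X := by
    intro u v huv
    have := congrArg (fun z => Y z) huv
    rw [← Module.End.mul_apply, ← Module.End.mul_apply, hYX] at this
    exact this
  have h1 : A.map X = A := by
    apply Submodule.eq_of_le_of_finrank_eq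
    · rintro _ ⟨v, hv, rfl⟩
      exact hA hv
    · exact LinearEquiv.finrank_eq (Submodule.equivMapOfInjective X hinj A).symm
  intro v hv
  rw [← h1] at hv
  obtain ⟨x, hx, rfl⟩ := hv
  have h2 : Y (X x) = x := by
    rw [← Module.End.mul_apply, hYX]
    rfl
  rw [Submodule.mem_comap, h2]
  exact hx

/-- the inverse `Y` of `X` on the graded piece `(j, i)` is `Y / Q^(i-j)` on the blocks of size `i` -/
theorem Frb.inv_step (h : Frb M X G G' Q) (Y : Module.End K V) (hYX : Y * X = 1) (hXY : X * Y = 1)
    (j i : ℕ) (hj : 1 ≤ j) (hi : j ≤ i) (P : Polynomial K) (x : V) (hx : x ∈ MT.kr M i) :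
    Polynomial.aeval (Q ^ (i - j) • Y) P ((M ^ (i - j)) x) -
      (M ^ (i - j)) (Polynomial.aeval Y P x) ∈ MT.kr M (j - 1) := by
  have hkrY : ∀ k, MT.kr M k ≤ (MT.kr M k).comap Y := fun k =>
    inv_stable X Y hYX _ (fun v hv => h.kr k v hv)
  -- one application
  have h1 : ∀ x ∈ MT.kr M i, (Q ^ (i - j) • Y) ((M ^ (i - j)) x) - (M ^ (i - j)) (Y x) ∈
      MT.kr M (j - 1) := by
    intro x hx
    obtain ⟨E, hE, hc⟩ := h.gpow (i - j)
    have h2 : Y * (M ^ (i - j) * G ^ (i - j)) = M ^ (i - j) * Y := by
      have h3 := h.pow (i - j)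
      calc Y * (M ^ (i - j) * G ^ (i - j)) =
          Y * (M ^ (i - j) * G ^ (i - j) * X) * Y := by
            simp only [mul_assoc]
            rw [hXY, mul_one]
        _ = (Y * X) * (M ^ (i - j) * Y) := by rw [← h3]; simp only [mul_assoc]
        _ = M ^ (i - j) * Y := by rw [hYX, one_mul]
    have h3 : (M ^ (i - j)) (Y x) = (Q ^ (i - j) • Y) ((M ^ (i - j)) x) +
        Y ((M ^ (i - j)) (M (E x))) := by
      have h4 := congrArg (fun z => z x) h2
      simp only [Module.End.mul_apply] at h4
      rw [← h4, hE]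
      have h5 : (Q ^ (i - j) • (1 : Module.End K V) + M * E) x = Q ^ (i - j) • x + M (E x) := rfl
      rw [h5, map_add, map_smul, map_add, map_smul]
      rfl
    rw [h3, sub_add_cancel_left]
    apply Submodule.neg_mem
    apply hkrY
    have h6 := pow_mem_kr M (i := j - 1) (j := i - j) (v := M (E x)) (by
      rw [mem_kr, show j - 1 + (i - j) = i - 1 by omega, ← Module.End.mul_apply, ← pow_succ,
        Nat.sub_add_cancel (le_trans hj hi), ← Module.End.mul_apply, (hc.pow_left i).eq,
        Module.End.mul_apply]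
      rw [mem_kr] at hx
      rw [hx, map_zero])
    exact h6
  have h2 : ∀ (k : ℕ) (x : V), x ∈ MT.kr M i →
      ((Q ^ (i - j) • Y) ^ k) ((M ^ (i - j)) x) - (M ^ (i - j)) ((Y ^ k) x) ∈ MT.kr M (j - 1) := by
    intro k
    induction k with
    | zero =>
      intro x _
      simp
    | succ k ih =>
      intro x hx
      have h3 := ih (Y x) (hkrY i hx)
      have h4 := h1 x hx
      have h5 : ((Q ^ (i - j) • Y) ^ (k + 1)) ((M ^ (i - j)) x) -
          (M ^ (i - j)) ((Y ^ (k + 1)) x) =
          ((Q ^ (i - j) • Y) ^ k) ((Q ^ (i - j) • Y) ((M ^ (i - j)) x) - (M ^ (i - j)) (Y x)) +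
          (((Q ^ (i - j) • Y) ^ k) ((M ^ (i - j)) (Y x)) - (M ^ (i - j)) ((Y ^ k) (Y x))) := by
        rw [pow_succ, pow_succ, Module.End.mul_apply, Module.End.mul_apply, map_sub]
        abel
      rw [h5]
      apply Submodule.add_mem _ _ h3
      have h6 : ∀ (k : ℕ) (v : V), v ∈ MT.kr M (j - 1) →
          ((Q ^ (i - j) • Y) ^ k) v ∈ MT.kr M (j - 1) := by
        intro k
        induction k with
        | zero => intro v hv; exact hv
        | succ k ih2 =>
          intro v hv
          rw [pow_succ, Module.End.mul_apply]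
          apply ih2
          exact Submodule.smul_mem _ _ (hkrY (j - 1) hv)
      exact h6 k _ h4
  induction P using Polynomial.induction_on' with
  | add P R hP hR =>
    simp only [map_add, LinearMap.add_apply]
    have h3 := Submodule.add_mem _ hP hR
    have h4 : ∀ a b c d : V, a - b + (c - d) = a + c - (b + d) := by
      intro a b c d
      abel
    rwa [h4] at h3
  | monomial k a =>
    simp only [Polynomial.aeval_monomial, Module.End.mul_apply, Module.algebraMap_end_apply,
      map_smul]
    rw [← smul_sub]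
    exact Submodule.smul_mem _ _ (h2 k x hx)

omit [FiniteDimensional K V] in
theorem aeval_stable (Z : Module.End K V) (A : Submodule K V) (hA : A ≤ A.comap Z)
    (P : Polynomial K) (v : V) (hv : v ∈ A) : Polynomial.aeval Z P v ∈ A := by
  induction P using Polynomial.induction_on' with
  | add P R hP hR =>
    simp only [map_add, LinearMap.add_apply]
    exact A.add_mem hP hR
  | monomial k a =>
    simp only [Polynomial.aeval_monomial, Module.End.mul_apply, Module.algebraMap_end_apply]
    apply A.smul_mem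
    induction k generalizing v with
    | zero => exact hv
    | succ k ih =>
      rw [pow_succ, Module.End.mul_apply]
      exact ih _ (hA hv)

/-- the polynomial of the blocks of size `i` kills the graded piece `(j, i)` -/
theorem Frb.inv_poly (h : Frb M X G G' Q) (Y : Module.End K V) (hYX : Y * X = 1) (hXY : X * Y = 1)
    (j i : ℕ) (hj : 1 ≤ j) (hi : j ≤ i) (P : Polynomial K)
    (hP : ∀ v ∈ MT.kr M i, Polynomial.aeval Y P v ∈ MT.rr M i) (v : V) (hv : v ∈ MT.ww M j i) :
    Polynomial.aeval (Q ^ (i - j) • Y) P v ∈ MT.ww M j (i + 1) := by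
  have hkr : MT.kr M (j - 1) ≤ (MT.kr M (j - 1)).comap (Q ^ (i - j) • Y) := by
    intro v hv
    have h0 : Y v ∈ MT.kr M (j - 1) := inv_stable X Y hYX _ (fun v hv => h.kr (j - 1) v hv) hv
    exact Submodule.smul_mem _ _ h0
  unfold MT.ww at hv
  obtain ⟨a, ha, _, ⟨x, hx, rfl⟩, rfl⟩ := Submodule.mem_sup.mp hv
  rw [map_add]
  have h1 : MT.kr M (j - 1) ≤ MT.ww M j (i + 1) := by
    unfold MT.ww
    exact le_sup_left
  apply Submodule.add_mem
  · exact h1 (aeval_stable _ _ hkr P a ha)
  · have h2 := h.inv_step Y hYX hXY j i hj hi P x hx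
    have h3 : (M ^ (i - j)) (Polynomial.aeval Y P x) ∈ MT.ww M j (i + 1) :=
      rr_map M j i hj hi ⟨_, hP x hx, rfl⟩
    have h4 := Submodule.add_mem _ (h1 h2) h3
    rwa [sub_add_cancel] at h4

end MT
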